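import Pool.Agent.T9h61.Rep

/-! Consequences of the repulsion of integral points close to the curve `y ^ 2 = x ^ 3`. -/

set_option autoImplicit false

open Filter Topology

namespace Pool.Agent.T9h61.Rep

/-- signs of the ordinates do not matter -/
theorem base' (x x' y y' : ℤ) (hx : 0 < x) (hlt : x < x')
    (h1 : 10 ^ 12 * (y ^ 2 - x ^ 3) ^ 4 ≤ x ^ 3) (h2 : 10 ^ 12 * (y' ^ 2 - x' ^ 3) ^ 4 ≤ x ^ 3) :
    2 * x ≤ (x' - x) ^ 4 :=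
  base x x' |y| |y'| hx hlt (abs_nonneg _) (abs_nonneg _) (by rwa [sq_abs]) (by rwa [sq_abs])

/-- two squares close to the same cube -/
theorem same (x y y' : ℤ) (hx : 0 < x)
    (h1 : 10 ^ 12 * (y ^ 2 - x ^ 3) ^ 4 ≤ x ^ 3) (h2 : 10 ^ 12 * (y' ^ 2 - x ^ 3) ^ 4 ≤ x ^ 3) :
    |y| = |y'| := by
  -- both `k` satisfy `10 ^ 6 k ^ 2 ≤ x ^ 2`
  have hb : ∀ z : ℤ, 10 ^ 12 * (z ^ 2 - x ^ 3) ^ 4 ≤ x ^ 3 → 1000 * |z ^ 2 - x ^ 3| ≤ x := by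
    intro z hz
    have a1 : x ^ 3 ≤ x ^ 4 := pow_le_pow_right₀ (by omega) (by norm_num)
    have a2 : (1000 * |z ^ 2 - x ^ 3|) ^ 4 ≤ x ^ 4 := by
      calc (1000 * |z ^ 2 - x ^ 3|) ^ 4 = 10 ^ 12 * |z ^ 2 - x ^ 3| ^ 4 := by ring
        _ = 10 ^ 12 * (z ^ 2 - x ^ 3) ^ 4 := by
            rw [← abs_pow, abs_of_nonneg (show 0 ≤ (z ^ 2 - x ^ 3) ^ 4 by positivity)]
        _ ≤ x ^ 4 := hz.trans a1
    exact le_of_pow_le_pow_left₀ (by norm_num) hx.le a2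
  have b1 := hb y h1
  have b2 := hb y' h2
  by_contra hne
  -- `| |y| ^ 2 - |y'| ^ 2 | ≥ |y| + |y'|`
  have c1 : |y| + |y'| ≤ |y ^ 2 - y' ^ 2| := by
    have e : y ^ 2 - y' ^ 2 = (|y| - |y'|) * (|y| + |y'|) := by
      rw [← sq_abs y, ← sq_abs y']; ring
    rw [e, abs_mul, abs_of_nonneg (show 0 ≤ |y| + |y'| by positivity)]
    have : 1 ≤ |(|y| - |y'|)| := Int.one_le_abs (sub_ne_zero.2 hne)
    exact le_mul_of_one_le_left (by positivity) this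
  have c2 : |y ^ 2 - y' ^ 2| ≤ |y ^ 2 - x ^ 3| + |y' ^ 2 - x ^ 3| := by
    have e : y ^ 2 - y' ^ 2 = (y ^ 2 - x ^ 3) - (y' ^ 2 - x ^ 3) := by ring
    rw [e]; exact abs_sub _ _
  -- so `|y| < x`, but `y ^ 2 ≥ x ^ 3 - x / 1000`
  have c3 : 1000 * |y| ≤ 2 * x := by
    have := abs_nonneg y'
    linarith
  have c4 : x ^ 3 - |y ^ 2 - x ^ 3| ≤ y ^ 2 := by
    have := neg_abs_le (y ^ 2 - x ^ 3)
    linarith
  have c5 : (1000 * |y|) ^ 2 ≤ (2 * x) ^ 2 := pow_le_pow_left₀ (by positivity) c3 2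
  have c6 : (1000 * |y|) ^ 2 = 10 ^ 6 * y ^ 2 := by rw [mul_pow, sq_abs]; ring
  rw [c6] at c5
  have c7 : x ^ 2 ≤ x ^ 3 := pow_le_pow_right₀ (by omega) (by norm_num)
  have c8 : x ≤ x ^ 2 := le_self_pow₀ (by omega) (by norm_num)
  have e9 : (2 * x) ^ 2 = 4 * x ^ 2 := by ring
  rw [e9] at c5
  linarith

/-- multiplicative form: `x' / x` is not close to the square of a rational number -/
theorem scaled (x y x' y' p q : ℤ) (hx : 0 < x) (hx' : 0 < x') (hp : 0 < p) (hq : 0 < q)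
    (h1 : 10 ^ 12 * (p ^ 6 * (y ^ 2 - x ^ 3)) ^ 4 ≤ (min (p ^ 2 * x) (q ^ 2 * x')) ^ 3)
    (h2 : 10 ^ 12 * (q ^ 6 * (y' ^ 2 - x' ^ 3)) ^ 4 ≤ (min (p ^ 2 * x) (q ^ 2 * x')) ^ 3) :
    (p ^ 2 * x = q ^ 2 * x' ∧ p ^ 3 * |y| = q ^ 3 * |y'|) ∨
      2 * min (p ^ 2 * x) (q ^ 2 * x') ≤ (q ^ 2 * x' - p ^ 2 * x) ^ 4 := by
  have hX : 0 < p ^ 2 * x := by positivity
  have hX' : 0 < q ^ 2 * x' := by positivity
  have e1 : p ^ 6 * (y ^ 2 - x ^ 3) = (p ^ 3 * y) ^ 2 - (p ^ 2 * x) ^ 3 := by ring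
  have e2 : q ^ 6 * (y' ^ 2 - x' ^ 3) = (q ^ 3 * y') ^ 2 - (q ^ 2 * x') ^ 3 := by ring
  rw [e1] at h1
  rw [e2] at h2
  rcases lt_trichotomy (p ^ 2 * x) (q ^ 2 * x') with h | h | h
  · right
    rw [min_eq_left h.le] at h1 h2 ⊢
    exact base' _ _ _ _ hX h h1 h2
  · left
    refine ⟨h, ?_⟩
    rw [← h, min_self] at h1 h2
    have := same (p ^ 2 * x) (p ^ 3 * y) (q ^ 3 * y') hX h1 h2
    rw [abs_mul, abs_mul, abs_of_pos (show 0 < p ^ 3 by positivity),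
      abs_of_pos (show 0 < q ^ 3 by positivity)] at this
    exact this
  · right
    rw [min_eq_right h.le] at h1 h2 ⊢
    have := base' _ _ _ _ hX' h h2 h1
    calc 2 * (q ^ 2 * x') ≤ (p ^ 2 * x - q ^ 2 * x') ^ 4 := this
      _ = (q ^ 2 * x' - p ^ 2 * x) ^ 4 := by ring

/-- form with real exponents -/
theorem powers (C e : ℝ) (he : e < 3 / 4) : ∃ X₀ : ℝ, 1 ≤ X₀ ∧ ∀ x y x' y' : ℤ, X₀ ≤ x → x < x' →
    |(y : ℝ) ^ 2 - (x : ℝ) ^ 3| ≤ C * (x : ℝ) ^ e → |(y' : ℝ) ^ 2 - (x' : ℝ) ^ 3| ≤ C * (x' : ℝ) ^ e →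
    (x : ℝ) ^ (1 / 4 : ℝ) ≤ (x' : ℝ) - x := by
  have hlim : Tendsto (fun t : ℝ => (|C| * 2 ^ |e|) * t ^ (-(3 / 4 - e))) atTop (𝓝 0) := by
    have := (tendsto_rpow_neg_atTop (y := 3 / 4 - e) (by linarith)).const_mul (|C| * 2 ^ |e|)
    simpa using this
  obtain ⟨X₀, hX₀⟩ := eventually_atTop.1 (hlim.eventually (gt_mem_nhds (show (0 : ℝ) < 1 / 1000 by norm_num)))
  refine ⟨max X₀ 1, le_max_right _ _, fun x y x' y' hx hlt h1 h2 => ?_⟩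
  have hx1 : (1 : ℝ) ≤ x := (le_max_right _ _).trans hx
  have hx0 : (0 : ℝ) < x := by linarith
  have hxi : 0 < x := by exact_mod_cast hx0
  have hltr : (x : ℝ) < x' := by exact_mod_cast hlt
  have hsmall := hX₀ x ((le_max_left _ _).trans hx)
  rcases lt_or_ge (2 * (x : ℝ)) x' with h | h
  · calc (x : ℝ) ^ (1 / 4 : ℝ) ≤ (x : ℝ) ^ (1 : ℝ) :=
          Real.rpow_le_rpow_of_exponent_le hx1 (by norm_num)
      _ = x := Real.rpow_one _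
      _ ≤ x' - x := by linarith
  · -- both differences are at most `x ^ (3/4) / 1000`
    have hb : ∀ t : ℝ, (x : ℝ) ≤ t → t ≤ 2 * x → C * t ^ e ≤ (x : ℝ) ^ (3 / 4 : ℝ) / 1000 := by
      intro t ht1 ht2
      have ht0 : 0 < t := by linarith
      have a1 : t ^ e ≤ 2 ^ |e| * (x : ℝ) ^ e := by
        have a2 : t = (t / x) * x := by field_simp
        have a3 : 1 ≤ t / x := by rw [le_div_iff₀ hx0]; linarith
        have a4 : t / x ≤ 2 := by rw [div_le_iff₀ hx0]; linarith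
        rw [a2, Real.mul_rpow (by positivity) hx0.le]
        apply mul_le_mul_of_nonneg_right _ (by positivity)
        calc (t / x) ^ e ≤ (t / x) ^ |e| :=
              Real.rpow_le_rpow_of_exponent_le a3 (le_abs_self e)
          _ ≤ 2 ^ |e| := Real.rpow_le_rpow (by linarith) a4 (abs_nonneg _)
      have a5 : C * t ^ e ≤ |C| * (2 ^ |e| * (x : ℝ) ^ e) := by
        calc C * t ^ e ≤ |C| * t ^ e := mul_le_mul_of_nonneg_right (le_abs_self C) (by positivity)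
          _ ≤ _ := mul_le_mul_of_nonneg_left a1 (abs_nonneg _)
      have a6 : (x : ℝ) ^ e = (x : ℝ) ^ (-(3 / 4 - e)) * (x : ℝ) ^ (3 / 4 : ℝ) := by
        rw [← Real.rpow_add hx0]; congr 1; ring
      rw [a6] at a5
      refine a5.trans ?_
      have a7 : 0 < (x : ℝ) ^ (3 / 4 : ℝ) := by positivity
      calc |C| * (2 ^ |e| * ((x : ℝ) ^ (-(3 / 4 - e)) * (x : ℝ) ^ (3 / 4 : ℝ))) =
            ((|C| * 2 ^ |e|) * (x : ℝ) ^ (-(3 / 4 - e))) * (x : ℝ) ^ (3 / 4 : ℝ) := by ring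
        _ ≤ (1 / 1000) * (x : ℝ) ^ (3 / 4 : ℝ) := mul_le_mul_of_nonneg_right hsmall.le a7.le
        _ = _ := by ring
    have conv : ∀ z w : ℤ, |(z : ℝ) ^ 2 - (w : ℝ) ^ 3| ≤ (x : ℝ) ^ (3 / 4 : ℝ) / 1000 →
        10 ^ 12 * (z ^ 2 - w ^ 3) ^ 4 ≤ x ^ 3 := by
      intro z w hzw
      have b1 : (1000 * |(z : ℝ) ^ 2 - (w : ℝ) ^ 3|) ^ 4 ≤ ((x : ℝ) ^ (3 / 4 : ℝ)) ^ 4 :=
        pow_le_pow_left₀ (by positivity) (by linarith) 4
      have b2 : ((x : ℝ) ^ (3 / 4 : ℝ)) ^ 4 = (x : ℝ) ^ 3 := by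
        rw [← Real.rpow_natCast, ← Real.rpow_mul hx0.le, ← Real.rpow_natCast]
        norm_num
      have b3 : (1000 * |(z : ℝ) ^ 2 - (w : ℝ) ^ 3|) ^ 4 =
          10 ^ 12 * ((z : ℝ) ^ 2 - (w : ℝ) ^ 3) ^ 4 := by
        rw [mul_pow, ← abs_pow, abs_of_nonneg (show 0 ≤ ((z : ℝ) ^ 2 - (w : ℝ) ^ 3) ^ 4 by positivity)]
        norm_num
      rw [b2, b3] at b1
      exact_mod_cast b1
    have key := base' x x' y y' hxi hlt (conv y x (h1.trans (hb x le_rfl (by linarith))))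
      (conv y' x' (h2.trans (hb x' hltr.le h)))
    have key' : 2 * (x : ℝ) ≤ ((x' : ℝ) - x) ^ 4 := by exact_mod_cast key
    have hd : 0 ≤ (x' : ℝ) - x := by linarith
    have e1 : ((x : ℝ) ^ (1 / 4 : ℝ)) ^ 4 = x := by
      rw [← Real.rpow_natCast, ← Real.rpow_mul hx0.le]
      norm_num
    refine le_of_pow_le_pow_left₀ (n := 4) (by norm_num) hd ?_
    rw [e1]
    linarith

/-- number of abscissae in short intervals -/
theorem count (C e : ℝ) (he : e < 3 / 4) : ∃ X₀ : ℝ, ∀ X H : ℝ, X₀ ≤ X → 0 ≤ H →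
    ({x : ℤ | X ≤ x ∧ (x : ℝ) ≤ X + H ∧ ∃ y : ℤ, |(y : ℝ) ^ 2 - (x : ℝ) ^ 3| ≤ C * (x : ℝ) ^ e}.ncard : ℝ)
      ≤ 1 + H / X ^ (1 / 4 : ℝ) := by
  obtain ⟨X₀, hX₀1, h⟩ := powers C e he
  refine ⟨X₀, fun X H hX hH => ?_⟩
  set S := {x : ℤ | X ≤ x ∧ (x : ℝ) ≤ X + H ∧ ∃ y : ℤ, |(y : ℝ) ^ 2 - (x : ℝ) ^ 3| ≤ C * (x : ℝ) ^ e}
    with hS
  set g := X ^ (1 / 4 : ℝ) with hg
  have hX1 : 1 ≤ X := hX₀1.trans hX
  have hg0 : 0 < g := by positivity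
  set f : ℤ → ℕ := fun x => ⌊((x : ℝ) - X) / g⌋₊ with hf
  have hmaps : ∀ x ∈ S, f x ∈ (Finset.range (⌊H / g⌋₊ + 1) : Set ℕ) := by
    rintro x ⟨h1, h2, -⟩
    rw [Finset.mem_coe, Finset.mem_range, Nat.lt_succ_iff]
    apply Nat.floor_le_floor
    exact div_le_div_of_nonneg_right (by linarith) hg0.le
  have hinj : Set.InjOn f S := by
    have aux : ∀ x ∈ S, ∀ x' ∈ S, x < x' → f x ≠ f x' := by
      rintro x ⟨h1, h2, y, hy⟩ x' ⟨h1', h2', y', hy'⟩ hlt heq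
      have a1 := h x y x' y' (hX.trans h1) hlt hy hy'
      have a2 : g ≤ (x : ℝ) ^ (1 / 4 : ℝ) := Real.rpow_le_rpow (by linarith) h1 (by norm_num)
      have a3 : ((x : ℝ) - X) / g + 1 ≤ ((x' : ℝ) - X) / g := by
        rw [div_add_one hg0.ne']
        exact div_le_div_of_nonneg_right (by linarith) hg0.le
      have a4 : f x + 1 ≤ f x' := by
        simp only [hf]
        rw [← Nat.floor_add_one (div_nonneg (by linarith) hg0.le)]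
        exact Nat.floor_le_floor a3
      omega
    intro x hx x' hx' heq
    rcases lt_trichotomy x x' with hlt | hlt | hlt
    · exact absurd heq (aux x hx x' hx' hlt)
    · exact hlt
    · exact absurd heq.symm (aux x' hx' x hx hlt)
  have hcard := Set.ncard_le_ncard_of_injOn f hmaps hinj (Finset.finite_toSet _)
  rw [Set.ncard_coe_finset, Finset.card_range] at hcard
  calc (S.ncard : ℝ) ≤ ((⌊H / g⌋₊ + 1 : ℕ) : ℝ) := by exact_mod_cast hcard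
    _ = ⌊H / g⌋₊ + 1 := by push_cast; ring
    _ ≤ H / g + 1 := by
        have := Nat.floor_le (show 0 ≤ H / g by positivity)
        linarith
    _ = 1 + H / g := by ring

end Pool.Agent.T9h61.Rep
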