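import Pool.Agent.T9h61.StrongB

/-! Stronger repulsion of integral points close to the curve `y ^ 2 = x ^ 3`: consequences. -/

set_option autoImplicit false

namespace Pool.Agent.T9h61.Strong

/-- signs of the ordinates do not matter -/
theorem main' (x y x' y' K : ℤ) (hx : 0 < x) (hlt : x < x') (hK : 1 ≤ K)
    (h1 : |y ^ 2 - x ^ 3| ≤ K) (h2 : |y' ^ 2 - x' ^ 3| ≤ K) :
    x < 1000 * K * (x' - x) ^ 2 ∨ x ^ 2 < 10 ^ 7 * K * (x' - x) ^ 5 :=
  main x |y| x' |y'| K hx hlt (abs_nonneg _) (abs_nonneg _) hK (by rwa [sq_abs]) (by rwa [sq_abs])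

/-- the version with real exponents -/
theorem powers (C e : ℝ) (hC : 0 < C) (he0 : 0 ≤ e) (he1 : e ≤ 1) :
    ∃ c : ℝ, 0 < c ∧ ∀ x y x' y' : ℤ, 0 < x → x < x' →
      (|y ^ 2 - x ^ 3| : ℝ) ≤ C * (x : ℝ) ^ e → (|y' ^ 2 - x' ^ 3| : ℝ) ≤ C * (x' : ℝ) ^ e →
      c * (x : ℝ) ^ min ((1 - e) / 2) ((2 - e) / 5) ≤ (x' : ℝ) - x := by
  set C' : ℝ := 2 * C + 2 with hC'
  have hC'0 : 2 < C' := by linarith
  refine ⟨1 / (10 ^ 7 * C'), by positivity, ?_⟩
  intro x y x' y' hx hlt h1 h2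
  have hx1 : (1 : ℝ) ≤ x := by exact_mod_cast hx
  have hx0 : (0 : ℝ) < x := by linarith
  have hlt' : (x : ℝ) + 1 ≤ x' := by exact_mod_cast hlt
  set c : ℝ := 1 / (10 ^ 7 * C') with hc
  have hc0 : 0 < c := by positivity
  have hc1 : c ≤ 1 := by
    rw [hc, div_le_one (by positivity)]
    linarith
  set β := min ((1 - e) / 2) ((2 - e) / 5) with hβ
  have hβ1 : β ≤ (1 - e) / 2 := min_le_left _ _
  have hβ2 : β ≤ (2 - e) / 5 := min_le_right _ _
  rcases le_or_gt ((x' : ℝ)) (2 * x) with hcase | hcase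
  · -- `x' ≤ 2 x`
    have hxe : 1 ≤ (x : ℝ) ^ e := Real.one_le_rpow hx1 he0
    have hx'e : (x' : ℝ) ^ e ≤ 2 * (x : ℝ) ^ e := by
      calc (x' : ℝ) ^ e ≤ (2 * x) ^ e := Real.rpow_le_rpow (by linarith) hcase he0
        _ = 2 ^ e * (x : ℝ) ^ e := Real.mul_rpow (by norm_num) hx0.le
        _ ≤ 2 * (x : ℝ) ^ e := by
            apply mul_le_mul_of_nonneg_right _ (by positivity)
            calc (2 : ℝ) ^ e ≤ 2 ^ (1 : ℝ) := Real.rpow_le_rpow_of_exponent_le (by norm_num) he1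
              _ = 2 := Real.rpow_one 2
    obtain ⟨K, hK1, hK2⟩ : ∃ K : ℤ, 2 * C * (x : ℝ) ^ e ≤ K ∧ (K : ℝ) < 2 * C * (x : ℝ) ^ e + 1 :=
      ⟨⌈2 * C * (x : ℝ) ^ e⌉, Int.le_ceil _, Int.ceil_lt_add_one _⟩
    have hKpos : (0 : ℝ) < K := lt_of_lt_of_le (by positivity) hK1
    have hK0 : 1 ≤ K := by
      have : (0 : ℤ) < K := by exact_mod_cast hKpos
      omega
    have hKC : (K : ℝ) ≤ C' * (x : ℝ) ^ e := by rw [hC']; linarith
    have b1 : |y ^ 2 - x ^ 3| ≤ K := by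
      have : (|y ^ 2 - x ^ 3| : ℝ) ≤ K := by
        refine h1.trans (le_trans ?_ hK1)
        have : 0 ≤ C * (x : ℝ) ^ e := by positivity
        linarith
      exact_mod_cast this
    have b2 : |y' ^ 2 - x' ^ 3| ≤ K := by
      have : (|y' ^ 2 - x' ^ 3| : ℝ) ≤ K := by
        refine h2.trans (le_trans ?_ hK1)
        have := mul_le_mul_of_nonneg_left hx'e hC.le
        linarith
      exact_mod_cast this
    have hh0 : (0 : ℝ) < (x' : ℝ) - x := by linarith
    rcases main' x y x' y' K hx hlt hK0 b1 b2 with h | h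
    · have h' : (x : ℝ) < 1000 * K * ((x' : ℝ) - x) ^ 2 := by exact_mod_cast h
      have h3 : (x : ℝ) < 1000 * (C' * (x : ℝ) ^ e) * ((x' : ℝ) - x) ^ 2 := by
        refine h'.trans_le ?_
        gcongr
      -- `x ^ (1 - e) < 1000 C' h ^ 2`
      have h4 : (x : ℝ) ^ (1 - e) * (x : ℝ) ^ e = x := by
        rw [← Real.rpow_add hx0]; simp
      have h5 : (x : ℝ) ^ (1 - e) < 1000 * C' * ((x' : ℝ) - x) ^ 2 := by
        have h6 : (x : ℝ) ^ (1 - e) * (x : ℝ) ^ e < (1000 * C' * ((x' : ℝ) - x) ^ 2) * (x : ℝ) ^ e := by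
          rw [h4]; linarith
        exact lt_of_mul_lt_mul_right h6 (by positivity)
      have h7 : (c * (x : ℝ) ^ β) ^ 2 ≤ ((x' : ℝ) - x) ^ 2 := by
        have h8 : ((x : ℝ) ^ β) ^ 2 ≤ (x : ℝ) ^ (1 - e) := by
          rw [← Real.rpow_natCast, ← Real.rpow_mul hx0.le]
          apply Real.rpow_le_rpow_of_exponent_le hx1
          push_cast
          linarith
        have h9 : c ^ 2 * (1000 * C') ≤ 1 := by
          have : c * (10 ^ 7 * C') = 1 := by rw [hc]; field_simp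
          calc c ^ 2 * (1000 * C') = c * (c * (1000 * C')) := by ring
            _ ≤ 1 * (c * (10 ^ 7 * C')) := by
                apply mul_le_mul hc1 _ (by positivity) (by norm_num)
                apply mul_le_mul_of_nonneg_left _ hc0.le
                linarith
            _ = 1 := by rw [this]; norm_num
        calc (c * (x : ℝ) ^ β) ^ 2 = c ^ 2 * ((x : ℝ) ^ β) ^ 2 := by ring
          _ ≤ c ^ 2 * (1000 * C' * ((x' : ℝ) - x) ^ 2) := by
              apply mul_le_mul_of_nonneg_left (h8.trans h5.le) (by positivity)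
          _ = (c ^ 2 * (1000 * C')) * ((x' : ℝ) - x) ^ 2 := by ring
          _ ≤ 1 * ((x' : ℝ) - x) ^ 2 := mul_le_mul_of_nonneg_right h9 (by positivity)
          _ = ((x' : ℝ) - x) ^ 2 := one_mul _
      exact le_of_pow_le_pow_left₀ two_ne_zero hh0.le h7
    · have h' : (x : ℝ) ^ 2 < 10 ^ 7 * K * ((x' : ℝ) - x) ^ 5 := by exact_mod_cast h
      have h3 : (x : ℝ) ^ 2 < 10 ^ 7 * (C' * (x : ℝ) ^ e) * ((x' : ℝ) - x) ^ 5 := by
        refine h'.trans_le ?_
        gcongr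
      have h4 : (x : ℝ) ^ (2 - e) * (x : ℝ) ^ e = (x : ℝ) ^ 2 := by
        rw [← Real.rpow_add hx0, ← Real.rpow_natCast]
        congr 1
        push_cast
        ring
      have h5 : (x : ℝ) ^ (2 - e) < 10 ^ 7 * C' * ((x' : ℝ) - x) ^ 5 := by
        have h6 : (x : ℝ) ^ (2 - e) * (x : ℝ) ^ e <
            (10 ^ 7 * C' * ((x' : ℝ) - x) ^ 5) * (x : ℝ) ^ e := by
          rw [h4]; linarith
        exact lt_of_mul_lt_mul_right h6 (by positivity)
      have h7 : (c * (x : ℝ) ^ β) ^ 5 ≤ ((x' : ℝ) - x) ^ 5 := by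
        have h8 : ((x : ℝ) ^ β) ^ 5 ≤ (x : ℝ) ^ (2 - e) := by
          rw [← Real.rpow_natCast, ← Real.rpow_mul hx0.le]
          apply Real.rpow_le_rpow_of_exponent_le hx1
          push_cast
          linarith
        have h9 : c ^ 5 * (10 ^ 7 * C') ≤ 1 := by
          have : c * (10 ^ 7 * C') = 1 := by rw [hc]; field_simp
          calc c ^ 5 * (10 ^ 7 * C') = c ^ 4 * (c * (10 ^ 7 * C')) := by ring
            _ = c ^ 4 := by rw [this, mul_one]
            _ ≤ 1 := pow_le_one₀ hc0.le hc1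
        calc (c * (x : ℝ) ^ β) ^ 5 = c ^ 5 * ((x : ℝ) ^ β) ^ 5 := by ring
          _ ≤ c ^ 5 * (10 ^ 7 * C' * ((x' : ℝ) - x) ^ 5) := by
              apply mul_le_mul_of_nonneg_left (h8.trans h5.le) (by positivity)
          _ = (c ^ 5 * (10 ^ 7 * C')) * ((x' : ℝ) - x) ^ 5 := by ring
          _ ≤ 1 * ((x' : ℝ) - x) ^ 5 := mul_le_mul_of_nonneg_right h9 (by positivity)
          _ = ((x' : ℝ) - x) ^ 5 := one_mul _
      exact le_of_pow_le_pow_left₀ (by norm_num) hh0.le h7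
  · -- `x' > 2 x`
    have h1 : (x : ℝ) ^ β ≤ x := by
      calc (x : ℝ) ^ β ≤ (x : ℝ) ^ (1 : ℝ) := by
            apply Real.rpow_le_rpow_of_exponent_le hx1
            linarith
        _ = x := Real.rpow_one _
    have h2 : c * (x : ℝ) ^ β ≤ 1 * (x : ℝ) ^ β := mul_le_mul_of_nonneg_right hc1 (by positivity)
    linarith

end Pool.Agent.T9h61.Strong
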