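import Mathlib

/-! Repulsion of integral points close to the curve `y ^ 2 = x ^ 3`. -/

set_option autoImplicit false

namespace Pool.Agent.T9h61.Rep

/-- real part of the argument: the integer `18 (x + x') h ^ 2 - 16 m ^ 2` is smaller than `2` -/
lemma small (s s' y y' : ℝ) (hs : 1 ≤ s) (hss : s < s') (hy : 0 ≤ y) (hy' : 0 ≤ y')
    (h1 : 10 ^ 12 * (y ^ 2 - (s ^ 2) ^ 3) ^ 4 ≤ (s ^ 2) ^ 3)
    (h2 : 10 ^ 12 * (y' ^ 2 - (s' ^ 2) ^ 3) ^ 4 ≤ (s ^ 2) ^ 3)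
    (hh : (s' ^ 2 - s ^ 2) ^ 4 < 2 * s ^ 2) :
    |18 * (s ^ 2 + s' ^ 2) * (s' ^ 2 - s ^ 2) ^ 2 - 16 * (y' - y) ^ 2| < 2 ∧ -1 < y' - y := by
  have hs0 : 0 < s := by linarith
  have hs0' : 0 < s' := by linarith
  set h : ℝ := s' ^ 2 - s ^ 2 with hdef
  have hh0 : 0 < h := by
    rw [hdef]
    have := pow_lt_pow_left₀ hss hs0.le (two_ne_zero)
    linarith
  -- the distances `η` and `η'`
  have key : ∀ σ Y : ℝ, s ≤ σ → 0 ≤ Y → 10 ^ 12 * (Y ^ 2 - (σ ^ 2) ^ 3) ^ 4 ≤ (s ^ 2) ^ 3 →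
      (Y - σ ^ 3) ^ 4 * s ^ 6 ≤ 1 / 10 ^ 12 := by
    intro σ Y h3 h4 h5
    have a1 : Y ^ 2 - (σ ^ 2) ^ 3 = (Y - σ ^ 3) * (Y + σ ^ 3) := by ring
    rw [a1, mul_pow] at h5
    have a2 : s ^ 3 ≤ Y + σ ^ 3 := by
      have : s ^ 3 ≤ σ ^ 3 := pow_le_pow_left₀ hs0.le h3 3
      linarith
    have a3 : (s ^ 3) ^ 4 ≤ (Y + σ ^ 3) ^ 4 := pow_le_pow_left₀ (by positivity) a2 4
    have a4 : (Y - σ ^ 3) ^ 4 * (s ^ 3) ^ 4 ≤ (Y - σ ^ 3) ^ 4 * (Y + σ ^ 3) ^ 4 :=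
      mul_le_mul_of_nonneg_left a3 (by positivity)
    have a5 : 10 ^ 12 * ((Y - σ ^ 3) ^ 4 * s ^ 6) * s ^ 6 ≤ 1 * s ^ 6 := by
      calc 10 ^ 12 * ((Y - σ ^ 3) ^ 4 * s ^ 6) * s ^ 6 = 10 ^ 12 * ((Y - σ ^ 3) ^ 4 * (s ^ 3) ^ 4) := by
            ring
        _ ≤ 10 ^ 12 * ((Y - σ ^ 3) ^ 4 * (Y + σ ^ 3) ^ 4) := by linarith
        _ ≤ (s ^ 2) ^ 3 := h5
        _ = 1 * s ^ 6 := by ring
    have a6 := le_of_mul_le_mul_right a5 (by positivity)
    linarith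
  have e1 := key s y le_rfl hy h1
  have e2 := key s' y' hss.le hy' h2
  -- bounds
  have hx' : s' ^ 2 ≤ 5 / 2 * s ^ 2 := by
    by_contra hcon
    push Not at hcon
    have b1 : 3 / 2 * s ^ 2 < h := by rw [hdef]; linarith
    have b2 : (3 / 2 * s ^ 2) ^ 4 < h ^ 4 := pow_lt_pow_left₀ b1 (by positivity) (by norm_num)
    have b3 : 1 ≤ s ^ 2 := one_le_pow₀ hs
    have b4 : 1 ≤ (s ^ 2) ^ 3 := one_le_pow₀ b3
    have b5 : (3 / 2 * s ^ 2) ^ 4 = 81 / 16 * ((s ^ 2) ^ 3 * s ^ 2) := by ring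
    have b6 : 1 * s ^ 2 ≤ (s ^ 2) ^ 3 * s ^ 2 := mul_le_mul_of_nonneg_right b4 (by positivity)
    linarith
  have bound : ∀ z : ℝ, z ^ 4 * s ^ 6 ≤ 1 / 10 ^ 12 → |z| ≤ 1 / 1000 ∧ |h * s' * z| ≤ 2 / 1000 := by
    intro z hz
    have c1 : (1 : ℝ) ≤ s ^ 6 := one_le_pow₀ hs
    have c2 : z ^ 4 ≤ z ^ 4 * s ^ 6 := le_mul_of_one_le_right (by positivity) c1
    constructor
    · have : |z| ^ 4 ≤ (1 / 1000) ^ 4 := by
        rw [show |z| ^ 4 = z ^ 4 by rw [← abs_pow]; exact abs_of_nonneg (by positivity)]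
        norm_num at hz ⊢
        linarith
      exact le_of_pow_le_pow_left₀ (by norm_num) (by norm_num) this
    · have c3 : (h * s' * z) ^ 4 = h ^ 4 * (s' ^ 2) ^ 2 * z ^ 4 := by ring
      have c4 : (s' ^ 2) ^ 2 ≤ (5 / 2 * s ^ 2) ^ 2 := pow_le_pow_left₀ (by positivity) hx' 2
      have c5 : h ^ 4 * (s' ^ 2) ^ 2 * z ^ 4 ≤ (2 * s ^ 2) * (5 / 2 * s ^ 2) ^ 2 * z ^ 4 := by
        gcongr
      have c6 : (2 * s ^ 2) * (5 / 2 * s ^ 2) ^ 2 * z ^ 4 = 25 / 2 * (z ^ 4 * s ^ 6) := by ring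
      have : |h * s' * z| ^ 4 ≤ (2 / 1000) ^ 4 := by
        rw [show |h * s' * z| ^ 4 = (h * s' * z) ^ 4 by
          rw [← abs_pow]; exact abs_of_nonneg (by positivity), c3]
        norm_num at hz ⊢
        linarith
      exact le_of_pow_le_pow_left₀ (by norm_num) (by norm_num) this
  obtain ⟨f1, g1⟩ := bound _ e1
  obtain ⟨f2, g2⟩ := bound _ e2
  set η := y - s ^ 3 with hη
  set η' := y' - s' ^ 3 with hη'
  set m0 := s' ^ 3 - s ^ 3 with hm0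
  have hm0pos : 0 < m0 := by
    have : s ^ 3 < s' ^ 3 := pow_lt_pow_left₀ hss hs0.le (by norm_num)
    rw [hm0]; linarith
  have hm0le : m0 ≤ 3 / 2 * (h * s') := by
    have : m0 = (s' - s) * (s' ^ 2 + s * s' + s ^ 2) := by rw [hm0]; ring
    rw [this, hdef]
    have d0 : 0 < s' - s := by linarith
    have : s' ^ 2 + s * s' + s ^ 2 ≤ 3 / 2 * ((s' + s) * s') := by
      have t1 : 0 ≤ (s' - s) * (s' + 2 * s) := mul_nonneg d0.le (by linarith)
      linarith [show (s' - s) * (s' + 2 * s) = s' ^ 2 + s * s' - 2 * s ^ 2 by ring,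
        show 3 / 2 * ((s' + s) * s') = 3 / 2 * s' ^ 2 + 3 / 2 * (s * s') by ring]
    calc (s' - s) * (s' ^ 2 + s * s' + s ^ 2) ≤ (s' - s) * (3 / 2 * ((s' + s) * s')) :=
          mul_le_mul_of_nonneg_left this d0.le
      _ = _ := by ring
  have hm : y' - y = m0 + (η' - η) := by rw [hm0, hη, hη']; ring
  have ab1 := abs_le.1 f1
  have ab2 := abs_le.1 f2
  have ab3 := abs_le.1 g1
  have ab4 := abs_le.1 g2
  constructor
  · have hq : |(η' - η) * (2 * m0 + (η' - η))| ≤ 12 / 1000 + 4 / 10 ^ 6 := by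
      have q1 : |η' - η| ≤ |η| + |η'| := by
        rw [abs_sub_comm]; exact abs_sub _ _
      have q2 : |η' - η| * (2 * m0) ≤ 3 * (|h * s' * η| + |h * s' * η'|) := by
        calc |η' - η| * (2 * m0) ≤ (|η| + |η'|) * (2 * (3 / 2 * (h * s'))) := by
              gcongr
          _ = 3 * (|h * s' * η| + |h * s' * η'|) := by
              rw [abs_mul, abs_mul (h * s') η', abs_of_pos (show 0 < h * s' by positivity)]
              ring
      have q3 : |η' - η| * |η' - η| ≤ 4 / 10 ^ 6 := by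
        have : |η' - η| ≤ 2 / 1000 := by linarith
        calc |η' - η| * |η' - η| ≤ 2 / 1000 * (2 / 1000) := by gcongr
          _ = _ := by norm_num
      calc |(η' - η) * (2 * m0 + (η' - η))| = |η' - η| * |2 * m0 + (η' - η)| := abs_mul _ _
        _ ≤ |η' - η| * (2 * m0 + |η' - η|) := by
            apply mul_le_mul_of_nonneg_left _ (abs_nonneg _)
            refine (abs_add_le _ _).trans ?_
            rw [abs_of_pos (show 0 < 2 * m0 by positivity)]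
        _ = |η' - η| * (2 * m0) + |η' - η| * |η' - η| := by ring
        _ ≤ 3 * (2 / 1000 + 2 / 1000) + 4 / 10 ^ 6 := by linarith
        _ = _ := by norm_num
    have hB0 : 18 * (s ^ 2 + s' ^ 2) * h ^ 2 - 16 * m0 ^ 2 =
        (s' - s) ^ 4 * (3 * (s + s') ^ 2 - (s' - s) ^ 2) := by
      rw [hdef, hm0]; ring
    have hB1 : 0 ≤ (s' - s) ^ 4 * (3 * (s + s') ^ 2 - (s' - s) ^ 2) := by
      apply mul_nonneg (by positivity)
      have t1 : 0 < s * s' := by positivity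
      linarith [show 3 * (s + s') ^ 2 - (s' - s) ^ 2 = 2 * s ^ 2 + 2 * s' ^ 2 + 8 * (s * s') by ring,
        sq_nonneg s, sq_nonneg s']
    have hB2 : (s' - s) ^ 4 * (3 * (s + s') ^ 2 - (s' - s) ^ 2) ≤ 3 / 2 := by
      have r1 : (s' - s) ^ 4 * (s + s') ^ 4 < 2 * s ^ 2 := by
        calc (s' - s) ^ 4 * (s + s') ^ 4 = h ^ 4 := by rw [hdef]; ring
          _ < _ := hh
      have r2 : 4 * s ^ 2 ≤ (s + s') ^ 2 := by
        have : (2 * s) ^ 2 ≤ (s + s') ^ 2 := pow_le_pow_left₀ (by positivity) (by linarith) 2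
        linarith [show (2 * s) ^ 2 = 4 * s ^ 2 by ring]
      have r3 : (s' - s) ^ 4 * (s + s') ^ 2 * (s + s') ^ 2 ≤ 1 / 2 * (s + s') ^ 2 := by
        calc (s' - s) ^ 4 * (s + s') ^ 2 * (s + s') ^ 2 = (s' - s) ^ 4 * (s + s') ^ 4 := by ring
          _ ≤ 2 * s ^ 2 := r1.le
          _ ≤ 1 / 2 * (s + s') ^ 2 := by linarith
      have r4 := le_of_mul_le_mul_right r3 (by positivity)
      have r5 : 0 ≤ (s' - s) ^ 4 * (s' - s) ^ 2 := by positivity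
      have r6 : (s' - s) ^ 4 * (3 * (s + s') ^ 2 - (s' - s) ^ 2) =
        3 * ((s' - s) ^ 4 * (s + s') ^ 2) - (s' - s) ^ 4 * (s' - s) ^ 2 := by ring
      linarith
    have hid : 18 * (s ^ 2 + s' ^ 2) * h ^ 2 - 16 * (y' - y) ^ 2 =
        (18 * (s ^ 2 + s' ^ 2) * h ^ 2 - 16 * m0 ^ 2) -
          16 * ((η' - η) * (2 * m0 + (η' - η))) := by
      rw [hm]; ring
    rw [hid, hB0, abs_lt]
    have hq' := abs_le.1 hq
    constructor
    · norm_num at hq' ⊢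
      linarith [hq'.1, hq'.2]
    · norm_num at hq' ⊢
      linarith [hq'.1, hq'.2]
  · rw [hm]
    linarith

/-- two integral points close to `y ^ 2 = x ^ 3` -/
theorem base (x x' y y' : ℤ) (hx : 0 < x) (hlt : x < x') (hy : 0 ≤ y) (hy' : 0 ≤ y')
    (h1 : 10 ^ 12 * (y ^ 2 - x ^ 3) ^ 4 ≤ x ^ 3) (h2 : 10 ^ 12 * (y' ^ 2 - x' ^ 3) ^ 4 ≤ x ^ 3) :
    2 * x ≤ (x' - x) ^ 4 := by
  by_contra hcon
  push Not at hcon
  have hxr : (0 : ℝ) < x := by exact_mod_cast hx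
  have hx'r : (0 : ℝ) < x' := by exact_mod_cast hx.trans hlt
  set s := √(x : ℝ) with hs
  set s' := √(x' : ℝ) with hs'
  have es : s ^ 2 = x := Real.sq_sqrt hxr.le
  have es' : s' ^ 2 = x' := Real.sq_sqrt hx'r.le
  have hs1 : 1 ≤ s := by
    rw [hs, Real.one_le_sqrt]
    exact_mod_cast hx
  have hss : s < s' := Real.sqrt_lt_sqrt hxr.le (by exact_mod_cast hlt)
  obtain ⟨k1, k2⟩ := small s s' y y' hs1 hss (by exact_mod_cast hy) (by exact_mod_cast hy')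
    (by rw [es]; exact_mod_cast h1) (by rw [es, es']; exact_mod_cast h2)
    (by rw [es, es']; exact_mod_cast hcon)
  rw [es, es'] at k1
  set h := x' - x with hh
  set m := y' - y with hm
  have hh0 : 0 < h := by omega
  have k1' : |18 * (x + x') * h ^ 2 - 16 * m ^ 2| < 2 := by exact_mod_cast k1
  have hm0 : 0 ≤ m := by
    have : (-1 : ℤ) < m := by exact_mod_cast k2
    omega
  -- the integer vanishes
  have hB : 9 * (x + x') * h ^ 2 = 8 * m ^ 2 := by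
    have e : 18 * (x + x') * h ^ 2 - 16 * m ^ 2 = 2 * (9 * (x + x') * h ^ 2 - 8 * m ^ 2) := by ring
    rw [e, abs_lt] at k1'
    omega
  have hsq : (3 * h) ^ 2 * (2 * (x + x')) = (4 * m) ^ 2 := by linear_combination 2 * hB
  have hdvd : 3 * h ∣ 4 * m := by
    rw [← Int.pow_dvd_pow_iff (n := 2) (by norm_num)]
    exact ⟨_, hsq.symm⟩
  obtain ⟨v, hv⟩ := hdvd
  have hv2 : 2 * (x + x') = v ^ 2 := by
    have : (3 * h) ^ 2 * (2 * (x + x')) = (3 * h) ^ 2 * v ^ 2 := by rw [hsq, hv]; ring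
    exact mul_left_cancel₀ (by positivity) this
  have hve : Even v := by
    have : Even (v ^ 2) := ⟨x + x', by rw [← hv2]; ring⟩
    exact (Int.even_pow.1 this).1
  obtain ⟨r, hr⟩ := hve
  have hw : x + x' = 2 * r ^ 2 := by
    have : 2 * (x + x') = 2 * (2 * r ^ 2) := by rw [hv2, hr]; ring
    linarith
  have hmr : 2 * m = 3 * h * r := by
    have : 2 * (2 * m) = 2 * (3 * h * r) := by
      rw [show 2 * (2 * m) = 4 * m by ring, hv, hr]; ring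
    linarith
  -- `h` is even
  have hhe : ∃ g : ℤ, h = 2 * g := ⟨r ^ 2 - x, by rw [hh]; linarith⟩
  obtain ⟨g, hg⟩ := hhe
  have hg0 : 0 < g := by omega
  have hxg : x = r ^ 2 - g := by
    have : x' - x = 2 * g := hg
    linarith
  have hx'g : x' = r ^ 2 + g := by
    have : x' - x = 2 * g := hg
    linarith
  have hmg : m = 3 * g * r := by
    rw [hg] at hmr; linarith
  have hr0 : 0 < r := by
    by_contra hcon2
    push Not at hcon2
    have h3 : m ≤ 0 := by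
      rw [hmg]
      have : 0 < 3 * g := by linarith
      nlinarith
    have h4 : m = 0 := le_antisymm h3 hm0
    rw [h4] at hB
    have : 0 < 9 * (x + x') * h ^ 2 := by
      have : 0 < x + x' := by linarith
      positivity
    linarith
  -- sizes
  have hg4 : 8 * g ^ 4 + g < r ^ 2 := by
    have : (2 * g) ^ 4 < 2 * (r ^ 2 - g) := by rw [← hg, ← hxg]; exact hcon
    linarith
  have hg1 : g ≤ g ^ 4 := by
    have a1 : 1 ≤ g ^ 3 := one_le_pow₀ (by omega)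
    have a2 : 1 * g ≤ g ^ 3 * g := mul_le_mul_of_nonneg_right a1 hg0.le
    have a3 : g ^ 3 * g = g ^ 4 := by ring
    linarith
  have hr9 : 9 * g < r ^ 2 := by linarith
  have hk : 10 ^ 6 * (y ^ 2 - x ^ 3) ^ 2 ≤ r ^ 3 := by
    have h5 : x ^ 3 ≤ (r ^ 2) ^ 3 := pow_le_pow_left₀ hx.le (by rw [hxg]; linarith) 3
    have h6 : (10 ^ 6 * (y ^ 2 - x ^ 3) ^ 2) ^ 2 ≤ (r ^ 3) ^ 2 := by
      calc (10 ^ 6 * (y ^ 2 - x ^ 3) ^ 2) ^ 2 = 10 ^ 12 * (y ^ 2 - x ^ 3) ^ 4 := by ring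
        _ ≤ x ^ 3 := h1
        _ ≤ (r ^ 2) ^ 3 := h5
        _ = (r ^ 3) ^ 2 := by ring
    exact le_of_pow_le_pow_left₀ (by norm_num) (by positivity) h6
  set n := 2 * y - 2 * r ^ 3 + 3 * g * r with hn
  have hid : 4 * (y ^ 2 - x ^ 3) = n * (2 * y + (2 * r ^ 3 - 3 * g * r)) - g ^ 2 * (3 * r ^ 2 - 4 * g) := by
    rw [hn, hxg]; ring
  have hr1 : 1 ≤ r := by omega
  by_cases hn0 : n = 0
  · rw [hn0, zero_mul, zero_sub] at hid
    have h7 : 2 * r ^ 2 ≤ g ^ 2 * (3 * r ^ 2 - 4 * g) := by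
      have a1 : 2 * r ^ 2 ≤ 3 * r ^ 2 - 4 * g := by linarith
      have h8 : 1 ≤ g ^ 2 := one_le_pow₀ (by omega)
      have a2 : 1 * (3 * r ^ 2 - 4 * g) ≤ g ^ 2 * (3 * r ^ 2 - 4 * g) :=
        mul_le_mul_of_nonneg_right h8 (by linarith [sq_nonneg r])
      linarith
    have h9 : (2 * r ^ 2) ^ 2 ≤ (4 * (y ^ 2 - x ^ 3)) ^ 2 := by
      rw [hid, neg_sq]
      exact pow_le_pow_left₀ (by positivity) h7 2
    have h10 : r ^ 4 * 10 ^ 6 ≤ 4 * r ^ 3 := by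
      have e1 : (2 * r ^ 2) ^ 2 = 4 * r ^ 4 := by ring
      have e2 : (4 * (y ^ 2 - x ^ 3)) ^ 2 = 16 * (y ^ 2 - x ^ 3) ^ 2 := by ring
      rw [e1, e2] at h9
      linarith
    have h11 : r ^ 3 ≤ r ^ 4 := pow_le_pow_right₀ hr1 (by norm_num)
    have : 0 < r ^ 3 := by positivity
    linarith
  · -- `n ≠ 0`
    have h7 : 5 * r ^ 3 ≤ 3 * (2 * y + (2 * r ^ 3 - 3 * g * r)) := by
      have a1 : 9 * g * r ≤ r ^ 2 * r := mul_le_mul_of_nonneg_right hr9.le hr0.le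
      have a2 : r ^ 2 * r = r ^ 3 := by ring
      linarith
    have h8 : 5 * r ^ 3 ≤ 3 * |n * (2 * y + (2 * r ^ 3 - 3 * g * r))| := by
      have p1 : 1 ≤ |n| := Int.one_le_abs hn0
      have p2 : 0 < 2 * y + (2 * r ^ 3 - 3 * g * r) := by
        have : 0 < r ^ 3 := by positivity
        linarith
      rw [abs_mul, abs_of_pos p2]
      have p3 := mul_le_mul_of_nonneg_right p1 p2.le
      linarith
    have h9 : 16 * (g ^ 2 * (3 * r ^ 2 - 4 * g)) ≤ 18 * r ^ 3 := by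
      -- `8 g ^ 4 ≤ r ^ 2`, so `g ^ 2 ≤ 3 r / 8`
      have p1 : 8 * g ^ 2 ≤ 3 * r := by
        by_contra hcon3
        push Not at hcon3
        have : (3 * r) ^ 2 < (8 * g ^ 2) ^ 2 := pow_lt_pow_left₀ hcon3 (by positivity) (by norm_num)
        have e1 : (3 * r) ^ 2 = 9 * r ^ 2 := by ring
        have e2 : (8 * g ^ 2) ^ 2 = 64 * g ^ 4 := by ring
        rw [e1, e2] at this
        linarith [sq_nonneg r]
      have p2 : g ^ 2 * (3 * r ^ 2 - 4 * g) ≤ g ^ 2 * (3 * r ^ 2) :=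
        mul_le_mul_of_nonneg_left (by linarith) (by positivity)
      have p3 : 8 * g ^ 2 * r ^ 2 ≤ 3 * r * r ^ 2 := mul_le_mul_of_nonneg_right p1 (by positivity)
      have e1 : 3 * r * r ^ 2 = 3 * r ^ 3 := by ring
      have e2 : g ^ 2 * (3 * r ^ 2) = 3 * (g ^ 2 * r ^ 2) := by ring
      have e3 : 8 * g ^ 2 * r ^ 2 = 8 * (g ^ 2 * r ^ 2) := by ring
      linarith
    have h10 : r ^ 3 ≤ 4 * |4 * (y ^ 2 - x ^ 3)| := by
      rw [hid]
      have p3 := abs_sub_abs_le_abs_sub (n * (2 * y + (2 * r ^ 3 - 3 * g * r)))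
        (g ^ 2 * (3 * r ^ 2 - 4 * g))
      have p4 : |g ^ 2 * (3 * r ^ 2 - 4 * g)| = g ^ 2 * (3 * r ^ 2 - 4 * g) := by
        apply abs_of_nonneg
        apply mul_nonneg (by positivity)
        linarith [sq_nonneg r]
      rw [p4] at p3
      have : 0 < r ^ 3 := by positivity
      linarith
    have h11 : (r ^ 3) ^ 2 ≤ 256 * (y ^ 2 - x ^ 3) ^ 2 := by
      have := pow_le_pow_left₀ (by positivity) h10 2
      rw [mul_pow, sq_abs, mul_pow] at this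
      linarith
    have h12 : 1 ≤ r ^ 3 := one_le_pow₀ hr1
    have h13 : r ^ 3 * 1 ≤ r ^ 3 * r ^ 3 := mul_le_mul_of_nonneg_left h12 (by positivity)
    have h14 : (r ^ 3) ^ 2 = r ^ 3 * r ^ 3 := by ring
    linarith

end Pool.Agent.T9h61.Rep
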