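import Mathlib

/-! Stronger repulsion of integral points close to the curve `y ^ 2 = x ^ 3`. -/

set_option autoImplicit false

namespace Pool.Agent.T9h61.Strong

/-- product of two bounds -/
lemma mb {a b c d : ℤ} (h1 : |a| ≤ b) (h2 : |c| ≤ d) : |a * c| ≤ b * d := by
  rw [abs_mul]
  exact mul_le_mul h1 h2 (abs_nonneg _) ((abs_nonneg _).trans h1)

/-- the basic relation -/
lemma rel (x y h m w κ σ A : ℤ) (hw : w = 4 * x + 2 * h)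
    (hκ : κ = ((y + m) ^ 2 - (x + h) ^ 3) - (y ^ 2 - x ^ 3))
    (hσ : σ = ((y + m) ^ 2 - (x + h) ^ 3) + (y ^ 2 - x ^ 3))
    (hA : A = 9 * h ^ 2 * w - 16 * m ^ 2) :
    A * (w ^ 3 - 6 * h ^ 2 * w + A + 32 * σ) =
      3 * h ^ 4 * w ^ 2 - 16 * h ^ 6 - 96 * κ * w ^ 2 * h - 128 * κ * h ^ 3 - 256 * κ ^ 2
        + 288 * h ^ 2 * w * σ := by
  subst hw hκ hσ hA
  ring

/-- the second relation -/
lemma rel2 (h w κ σ A j : ℤ) (hj : j = 3 * h ^ 4 - A * w - 96 * κ * h)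
    (hr : A * (w ^ 3 - 6 * h ^ 2 * w + A + 32 * σ) =
      3 * h ^ 4 * w ^ 2 - 16 * h ^ 6 - 96 * κ * w ^ 2 * h - 128 * κ * h ^ 3 - 256 * κ ^ 2
        + 288 * h ^ 2 * w * σ) :
    (w ^ 2 - 6 * h ^ 2) * j = -2 * h ^ 6 + 704 * κ * h ^ 3 + A ^ 2 + 256 * κ ^ 2
      - 288 * h ^ 2 * w * σ + 32 * A * σ := by
  subst hj
  linear_combination -hr

/-- the third relation -/
lemma rel3 (h w κ σ A j l : ℤ) (hj : j = 3 * h ^ 4 - A * w - 96 * κ * h)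
    (hl : l = 2 * A ^ 2 + 9 * h ^ 2 * j + 864 * A * σ)
    (hR : (w ^ 2 - 6 * h ^ 2) * j = -2 * h ^ 6 + 704 * κ * h ^ 3 + A ^ 2 + 256 * κ ^ 2
      - 288 * h ^ 2 * w * σ + 32 * A * σ) :
    w ^ 2 * l = 42 * h ^ 4 * j + 2 * j ^ 2 + 20736 * κ ^ 2 * h ^ 2 + 5184 * κ * h ^ 5
      + 384 * κ * h * j - 864 * σ * w * j - 82944 * κ * σ * h * w + 9 * h ^ 2 * A ^ 2
      + 288 * h ^ 2 * A * σ := by
  have hT : A * w = 3 * h ^ 4 - j - 96 * κ * h := by linarith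
  subst hl
  linear_combination (9 * h ^ 2) * hR + (2 * (A * w + 3 * h ^ 4 - j - 96 * κ * h) + 864 * σ * w) * hT

/-- the fourth relation -/
lemma rel4 (h w σ A j : ℤ) (hj : A * w = 3 * h ^ 4 - j)
    (hl : 2 * A ^ 2 + 9 * h ^ 2 * j + 864 * A * σ = 0)
    (hE : 42 * h ^ 4 * j + 2 * j ^ 2 - 864 * σ * w * j + 9 * h ^ 2 * A ^ 2
      + 288 * h ^ 2 * A * σ = 0) :
    -3 * h ^ 4 * A ^ 2 - 28512 * h ^ 4 * A * σ + 2239488 * h ^ 4 * σ ^ 2 + 18 * h ^ 2 * j ^ 2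
      - 1728 * σ * A * j - 746496 * σ ^ 2 * j = 0 := by
  linear_combination (9 * h ^ 2) * hE - (42 * h ^ 4 - 864 * σ * w) * hl
    - (864 * σ * (2 * A + 864 * σ)) * hj

/-- the fifth relation -/
lemma rel5 (h w κ σ A : ℤ) (hj : A * w = 3 * h ^ 4 - 96 * κ * h)
    (hR : -2 * h ^ 6 + 704 * κ * h ^ 3 + A ^ 2 + 256 * κ ^ 2
      - 288 * h ^ 2 * w * σ + 32 * A * σ = 0) :
    -54 * h ^ 6 * (A + 432 * σ) + 27 * κ * h ^ 3 * (640 * A + 64 * (A + 432 * σ))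
      + A * (25 * A ^ 2 + 2 * A * (A + 432 * σ) + 6912 * κ ^ 2) = 0 := by
  linear_combination (27 * A) * hR + (27 * 288 * h ^ 2 * σ) * hj

end Pool.Agent.T9h61.Strong
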