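import Pool.Agent.T9h61.Strong

set_option autoImplicit false

namespace Pool.Agent.T9h61.Strong

/-- the first bound for the integer `A` -/
lemma boundA (x y h m w κ σ A K : ℤ) (hx : 0 < x) (hh : 0 < h) (hy : 0 ≤ y) (hy' : 0 ≤ y + m)
    (hw : w = 4 * x + 2 * h)
    (hκ : κ = ((y + m) ^ 2 - (x + h) ^ 3) - (y ^ 2 - x ^ 3))
    (hσ : σ = ((y + m) ^ 2 - (x + h) ^ 3) + (y ^ 2 - x ^ 3))
    (hA : A = 9 * h ^ 2 * w - 16 * m ^ 2) (hK : 1 ≤ K) (hκK : |κ| ≤ 2 * K) (hσK : |σ| ≤ 2 * K)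
    (f5 : 4000 * K * h ^ 2 ≤ w) : |A| ≤ 10 * w * h ^ 2 := by
  have hw0 : 0 < w := by rw [hw]; positivity
  have hh2 : 1 ≤ h ^ 2 := one_le_pow₀ hh
  have hKh : K ≤ K * h ^ 2 := le_mul_of_one_le_right (by omega) hh2
  have hh2K : h ^ 2 ≤ K * h ^ 2 := le_mul_of_one_le_left (by positivity) hK
  have w4 : 4000 ≤ w := by linarith
  obtain ⟨k1, k2⟩ := abs_le.1 hκK
  obtain ⟨s1, s2⟩ := abs_le.1 hσK
  set s := 2 * y + m with hs
  have e1 : 16 * m * s = 3 * w ^ 2 * h + 4 * h ^ 3 + 16 * κ := by rw [hs, hκ, hw]; ring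
  have e2 : 16 * (s ^ 2 + m ^ 2) = w ^ 3 + 12 * w * h ^ 2 + 32 * σ := by rw [hs, hσ, hw]; ring
  have hms : m ^ 2 ≤ s ^ 2 := by
    apply sq_le_sq'
    · linarith
    · linarith
  -- sizes
  have c1 : w ^ 2 * h ≥ 4000 * w := by
    have : 4000 * w ≤ w * w := mul_le_mul_of_nonneg_right w4 hw0.le
    have : w * w ≤ w * w * h := le_mul_of_one_le_right (by positivity) hh
    linarith
  have c2 : 4000 * h ^ 3 ≤ w ^ 2 * h := by
    have t1 : 4000 * h ^ 2 ≤ w ^ 2 := by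
      have : w ≤ w ^ 2 := le_self_pow₀ (by omega) (by norm_num)
      linarith
    have := mul_le_mul_of_nonneg_right t1 hh.le
    linarith
  have c3 : 100 * (3 * w ^ 2 * h + 4 * h ^ 3 + 16 * κ) ≤ 301 * w ^ 2 * h := by linarith
  have c4 : 0 ≤ 3 * w ^ 2 * h + 4 * h ^ 3 + 16 * κ := by
    have : 0 ≤ h ^ 3 := by positivity
    linarith
  have c5 : (100 * (3 * w ^ 2 * h + 4 * h ^ 3 + 16 * κ)) ^ 2 ≤ (301 * w ^ 2 * h) ^ 2 :=
    pow_le_pow_left₀ (by linarith) c3 2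
  have c6 : w ^ 3 ≥ 4000 * w := by
    have : 4000 * w ≤ w * w := mul_le_mul_of_nonneg_right w4 hw0.le
    have t : w * w ≤ w * w * w := le_mul_of_one_le_right (by positivity) (by omega)
    calc w ^ 3 = w * w * w := by ring
      _ ≥ 4000 * w := by linarith
  have c7 : 99 * w ^ 3 ≤ 100 * (32 * s ^ 2) := by
    have : 0 ≤ w * h ^ 2 := by positivity
    linarith
  have c8 : (8 * m ^ 2) * (99 * w ^ 3) ≤ (8 * m ^ 2) * (100 * (32 * s ^ 2)) :=
    mul_le_mul_of_nonneg_left c7 (by positivity)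
  have c9 : 100 * ((8 * m ^ 2) * (100 * (32 * s ^ 2))) =
      (100 * (3 * w ^ 2 * h + 4 * h ^ 3 + 16 * κ)) ^ 2 := by
    rw [← e1]; ring
  have c10 : (79200 * m ^ 2) * w ^ 3 ≤ (90601 * w * h ^ 2) * w ^ 3 := by
    have : (301 * w ^ 2 * h) ^ 2 = (90601 * w * h ^ 2) * w ^ 3 := by ring
    linarith
  have c11 : 79200 * m ^ 2 ≤ 90601 * w * h ^ 2 := le_of_mul_le_mul_right c10 (by positivity)
  have c12 : 0 ≤ m ^ 2 := by positivity
  have c13 : 0 ≤ w * h ^ 2 := by positivity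
  rw [abs_le, hA]
  constructor <;> linarith

/-- case of a small difference -/
lemma partA (w h κ σ A K : ℤ) (hh : 0 < h) (hK : 1 ≤ K) (hκK : |κ| ≤ 2 * K) (hσK : |σ| ≤ 2 * K)
    (f5 : 4000 * K * h ^ 2 ≤ w) (f7 : 20 * h ^ 3 ≤ w) (hA : |A| ≤ 10 * w * h ^ 2)
    (hr : A * (w ^ 3 - 6 * h ^ 2 * w + A + 32 * σ) =
      3 * h ^ 4 * w ^ 2 - 16 * h ^ 6 - 96 * κ * w ^ 2 * h - 128 * κ * h ^ 3 - 256 * κ ^ 2
        + 288 * h ^ 2 * w * σ) : False := by
  have hK0 : 0 < K := by omega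
  have hh2 : 1 ≤ h ^ 2 := one_le_pow₀ hh
  have hhh : h ≤ h ^ 2 := le_self_pow₀ hh (by norm_num)
  have hKh : K ≤ K * h ^ 2 := le_mul_of_one_le_right (by omega) hh2
  have hh2K : h ^ 2 ≤ K * h ^ 2 := le_mul_of_one_le_left (by positivity) hK
  have hKhh : K * h ≤ K * h ^ 2 := mul_le_mul_of_nonneg_left hhh (by omega)
  have w4 : 4000 ≤ w := by linarith
  have hw0 : 0 < w := by omega
  have w4' : 4000 * w ≤ w ^ 2 := by
    have : 4000 * w ≤ w * w := mul_le_mul_of_nonneg_right w4 hw0.le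
    linarith
  have w5' : 4000 * w ^ 2 ≤ w ^ 3 := by
    have : 4000 * w ^ 2 ≤ w * w ^ 2 := mul_le_mul_of_nonneg_right w4 (by positivity)
    linarith
  have w3h : w ^ 3 ≤ h * w ^ 3 := le_mul_of_one_le_left (by positivity) hh
  -- bounds for the individual terms
  have t1 : |κ ^ 2| ≤ (2 * K) * (2 * K) := by rw [sq]; exact mb hκK hκK
  have t2 : 4000 * 4000 * (K * K) ≤ w ^ 2 := by
    have : (4000 * K) * (4000 * K) ≤ w * w := mul_le_mul (by linarith) (by linarith) (by positivity) hw0.le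
    linarith
  have t3 : |κ * h ^ 3| ≤ (2 * K) * h ^ 3 := mb hκK (abs_of_nonneg (by positivity)).le
  have t4 : 4000 * 4000 * (K * h ^ 3) ≤ w ^ 2 := by
    have a1 : (4000 * K * h ^ 2) * (4000 * h) ≤ w * w :=
      mul_le_mul f5 (by linarith) (by positivity) hw0.le
    linarith
  have t5 : |h ^ 2 * w * σ| ≤ (h ^ 2 * w) * (2 * K) := mb (abs_of_nonneg (by positivity)).le hσK
  have t6 : 4000 * (h ^ 2 * w * K) ≤ w ^ 2 := by
    have : (4000 * K * h ^ 2) * w ≤ w * w := mul_le_mul_of_nonneg_right f5 hw0.le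
    linarith
  have t7 : |κ * (w ^ 2 * h)| ≤ (2 * K) * (w ^ 2 * h) := mb hκK (abs_of_nonneg (by positivity)).le
  have t8 : 4000 * (K * (w ^ 2 * h)) ≤ w ^ 3 := by
    have : (4000 * (K * h)) * w ^ 2 ≤ w * w ^ 2 :=
      mul_le_mul_of_nonneg_right (by linarith) (by positivity)
    linarith
  have t9 : 400 * h ^ 6 ≤ w ^ 2 := by
    have : (20 * h ^ 3) * (20 * h ^ 3) ≤ w * w := mul_le_mul f7 f7 (by positivity) hw0.le
    linarith
  have t10 : 20 * (h ^ 4 * w ^ 2) ≤ h * w ^ 3 := by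
    have : (20 * h ^ 3) * (h * w ^ 2) ≤ w * (h * w ^ 2) := mul_le_mul_of_nonneg_right f7 (by positivity)
    linarith
  have t11 : 4000 * (h ^ 2 * w) ≤ w ^ 2 := by
    have : (4000 * h ^ 2) * w ≤ w * w := mul_le_mul_of_nonneg_right (by linarith) hw0.le
    linarith
  obtain ⟨k1, k2⟩ := abs_le.1 hκK
  obtain ⟨s1, s2⟩ := abs_le.1 hσK
  obtain ⟨a1, a2⟩ := abs_le.1 hA
  obtain ⟨p1, p1'⟩ := abs_le.1 t1
  obtain ⟨p3, p3'⟩ := abs_le.1 t3
  obtain ⟨p5, p5'⟩ := abs_le.1 t5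
  obtain ⟨p7, p7'⟩ := abs_le.1 t7
  have h60 : 0 ≤ h ^ 6 := by positivity
  have hw40 : 0 ≤ h ^ 4 * w ^ 2 := by positivity
  have q2 : 0 ≤ κ ^ 2 := by positivity
  set D := w ^ 3 - 6 * h ^ 2 * w + A + 32 * σ with hD
  have hD1 : 99 * w ^ 3 ≤ 100 * D := by
    rw [hD]
    linarith
  have hD0 : 0 < D := by
    have : 0 < w ^ 3 := by positivity
    linarith
  set N := 3 * h ^ 4 * w ^ 2 - 16 * h ^ 6 - 96 * κ * w ^ 2 * h - 128 * κ * h ^ 3 - 256 * κ ^ 2
        + 288 * h ^ 2 * w * σ with hN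
  have hN1 : |N| ≤ 3 * (h ^ 4 * w ^ 2) + 16 * h ^ 6 + 192 * (K * (w ^ 2 * h)) + 256 * (K * h ^ 3)
      + 1024 * (K * K) + 576 * (h ^ 2 * w * K) := by
    rw [abs_le, hN]
    constructor <;> linarith
  -- `|A| ≤ 0.21 h`
  have hN2 : 1000 * |N| ≤ 205 * (h * w ^ 3) := by linarith
  have hAD : |A| * D = |N| := by rw [← hr, abs_mul, abs_of_pos hD0]
  have hA2 : 100 * |A| ≤ 21 * h := by
    have b1 : |A| * (99 * w ^ 3) ≤ |A| * (100 * D) := mul_le_mul_of_nonneg_left hD1 (abs_nonneg _)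
    have b2 : (990 * |A|) * w ^ 3 ≤ (205 * h) * w ^ 3 := by linarith
    have b3 := le_of_mul_le_mul_right b2 (by positivity)
    linarith
  obtain ⟨a3, a4⟩ := abs_le.1 (show |100 * A| ≤ 21 * h by rw [abs_mul]; simpa using hA2)
  -- `j = 0`
  set j := 3 * h ^ 4 - A * w - 96 * κ * h with hj
  have hR := rel2 h w κ σ A j hj hr
  have t12 : |A ^ 2| ≤ h ^ 2 := by
    have := mb (show |A| ≤ h by omega) (show |A| ≤ h by omega)
    rw [sq, sq]; exact this
  have t13 : |A * σ| ≤ h * (2 * K) := mb (by omega) hσK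
  obtain ⟨p12, p12'⟩ := abs_le.1 t12
  obtain ⟨p13, p13'⟩ := abs_le.1 t13
  have hRb : |-2 * h ^ 6 + 704 * κ * h ^ 3 + A ^ 2 + 256 * κ ^ 2
      - 288 * h ^ 2 * w * σ + 32 * A * σ| < w ^ 2 - 6 * h ^ 2 := by
    rw [abs_lt]
    constructor <;> linarith
  have hj0 : j = 0 := by
    by_contra hne
    have b1 : 1 ≤ |j| := Int.one_le_abs hne
    have b2 : (0 : ℤ) ≤ w ^ 2 - 6 * h ^ 2 := (abs_nonneg _).trans hRb.le
    have b3 : w ^ 2 - 6 * h ^ 2 ≤ (w ^ 2 - 6 * h ^ 2) * |j| := le_mul_of_one_le_right b2 b1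
    have b4 : (w ^ 2 - 6 * h ^ 2) * |j| = |(w ^ 2 - 6 * h ^ 2) * j| := by
      rw [abs_mul, abs_of_nonneg b2]
    rw [hR] at b4
    linarith
  rw [hj0, mul_zero] at hR
  have hR' := hR.symm
  have hjj : A * w = 3 * h ^ 4 - 96 * κ * h := by linarith
  clear_value j
  -- `A ≠ 0`
  have hAne : A ≠ 0 := by
    intro h0
    rw [h0] at hR' hjj
    have b1 : h ^ 3 = 32 * κ := by
      have : h * (3 * (h ^ 3)) = h * (3 * (32 * κ)) := by linarith
      have := mul_left_cancel₀ hh.ne' this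
      linarith
    have b2 : 72 * κ ^ 2 = h ^ 2 * w * σ := by
      have e6 : h ^ 6 = (32 * κ) ^ 2 := by rw [← b1]; ring
      have e3 : κ * h ^ 3 = κ * (32 * κ) := by rw [b1]
      rw [e6] at hR'
      linarith
    have b3 : 0 < κ := by
      have : 0 < h ^ 3 := by positivity
      linarith
    have b4 : 0 < σ := by
      have : 0 < h ^ 2 * w * σ := by rw [← b2]; positivity
      exact pos_of_mul_pos_right this (by positivity)
    have b5 : h ^ 2 * w ≤ h ^ 2 * w * σ := le_mul_of_one_le_right (by positivity) b4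
    have b6 : κ ^ 2 ≤ (2 * K) * κ := by rw [sq]; exact mul_le_mul_of_nonneg_right k2 b3.le
    have b7 : 16 * ((2 * K) * κ) = K * h ^ 3 := by rw [b1]; ring
    have b8 : h ^ 2 * w ≤ h ^ 2 * (72 * (K * h)) := by
      have : h ^ 2 * (72 * (K * h)) = 72 * (K * h ^ 3) := by ring
      have : 0 ≤ K * h ^ 3 := by positivity
      linarith
    have b9 := le_of_mul_le_mul_left b8 (by positivity)
    have : 0 < K * h := by positivity
    linarith
  -- `h ^ 4 ≥ 0.3 w`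
  have hA1 : 1 ≤ |A| := Int.one_le_abs hAne
  have hDN : D ≤ |N| := by rw [← hAD]; exact le_mul_of_one_le_left hD0.le hA1
  have hh4 : 3 * w ≤ 10 * h ^ 4 := by
    have b1 : w ^ 2 * (3 * w) ≤ w ^ 2 * (10 * h ^ 4) := by linarith
    exact le_of_mul_le_mul_left b1 (by positivity)
  have hKh2 : 1200 * K ≤ h ^ 2 := by
    have b1 : h ^ 2 * (1200 * K) ≤ h ^ 2 * (h ^ 2) := by
      have e1 : h ^ 2 * h ^ 2 = h ^ 4 := by ring
      have e2 : h ^ 2 * (1200 * K) = 1200 * (K * h ^ 2) := by ring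
      linarith
    exact le_of_mul_le_mul_left b1 (by positivity)
  have hh6 : 6 ≤ h := by
    by_contra hcon
    have b1 : h ≤ 5 := by omega
    have b2 : h ^ 4 ≤ 5 ^ 4 := pow_le_pow_left₀ hh.le b1 4
    norm_num at b2
    linarith
  -- `A > 0`
  have hhK : 1200 * (K * h) ≤ h ^ 3 := by
    have := mul_le_mul_of_nonneg_right hKh2 hh.le
    linarith
  have hh34 : 6 * h ^ 3 ≤ h ^ 4 := by
    have := mul_le_mul_of_nonneg_right hh6 (show 0 ≤ h ^ 3 by positivity)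
    linarith
  have hh23 : 6 * h ^ 2 ≤ h ^ 3 := by
    have := mul_le_mul_of_nonneg_right hh6 (show 0 ≤ h ^ 2 by positivity)
    linarith
  have hh45 : 6 * h ^ 4 ≤ h ^ 5 := by
    have := mul_le_mul_of_nonneg_right hh6 (show 0 ≤ h ^ 4 by positivity)
    linarith
  have hh56 : 6 * h ^ 5 ≤ h ^ 6 := by
    have := mul_le_mul_of_nonneg_right hh6 (show 0 ≤ h ^ 5 by positivity)
    linarith
  have hh3 : 0 < h ^ 3 := by positivity
  have hApos : 0 < A := by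
    have b1 : |κ * h| ≤ 2 * K * h := mb hκK (abs_of_pos hh).le
    have b2 := (abs_le.1 b1).2
    have b3 : 0 < A * w := by rw [hjj]; linarith
    exact pos_of_mul_pos_left b3 hw0.le
  -- the identity
  have hZ := rel5 h w κ σ A hjj hR'
  set B := A + 432 * σ with hB
  have hκh : 600 * |κ| ≤ h ^ 2 := by linarith
  have hκ3 : |κ * h ^ 3 * (640 * A)| * 600 ≤ 135 * h ^ 6 := by
    have b1 : |κ * h ^ 3 * (640 * A)| = |κ| * h ^ 3 * (640 * A) := by
      rw [abs_mul, abs_mul, abs_of_pos hh3, abs_of_pos (by positivity : 0 < 640 * A)]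
    rw [b1]
    calc |κ| * h ^ 3 * (640 * A) * 600 = (600 * |κ|) * (h ^ 3 * (640 * A)) := by ring
      _ ≤ h ^ 2 * (h ^ 3 * (135 * h)) := by
          apply mul_le_mul hκh _ (by positivity) (by positivity)
          apply mul_le_mul_of_nonneg_left _ (by positivity)
          linarith
      _ = 135 * h ^ 6 := by ring
  have hκ4 : |κ * h ^ 3 * (64 * B)| * 600 ≤ 64 * h ^ 5 * |B| := by
    have b1 : |κ * h ^ 3 * (64 * B)| = |κ| * h ^ 3 * (64 * |B|) := by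
      rw [abs_mul, abs_mul, abs_of_pos hh3, abs_mul]; norm_num
    rw [b1]
    calc |κ| * h ^ 3 * (64 * |B|) * 600 = (600 * |κ|) * (h ^ 3 * (64 * |B|)) := by ring
      _ ≤ h ^ 2 * (h ^ 3 * (64 * |B|)) := by
          apply mul_le_mul_of_nonneg_right hκh (by positivity)
      _ = 64 * h ^ 5 * |B| := by ring
  have hA3 : A * A ^ 2 ≤ h ^ 3 := by
    have : A ^ 3 ≤ h ^ 3 := pow_le_pow_left₀ hApos.le (by omega) 3
    linarith [this, show A * A ^ 2 = A ^ 3 by ring]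
  have hAB : |A ^ 2 * B| ≤ h ^ 2 * |B| := mb t12 le_rfl
  have hAκ : A * κ ^ 2 * 360000 ≤ h ^ 5 := by
    have b1 : (600 * |κ|) ^ 2 ≤ (h ^ 2) ^ 2 := pow_le_pow_left₀ (by positivity) hκh 2
    have b2 : (600 * |κ|) ^ 2 = 360000 * κ ^ 2 := by rw [mul_pow, sq_abs]; norm_num
    rw [b2] at b1
    calc A * κ ^ 2 * 360000 = A * (360000 * κ ^ 2) := by ring
      _ ≤ h * (h ^ 2) ^ 2 := mul_le_mul (by omega) b1 (by positivity) hh.le
      _ = h ^ 5 := by ring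
  have hAκ0 : 0 ≤ A * κ ^ 2 := by positivity
  have hA30 : 0 ≤ A * A ^ 2 := by positivity
  by_cases hB0 : B = 0
  · rw [hB0] at hZ
    have b1 : A * (17280 * κ * h ^ 3 + 25 * A ^ 2 + 6912 * κ ^ 2) = 0 := by linarith
    have b2 : 17280 * κ * h ^ 3 + 25 * A ^ 2 + 6912 * κ ^ 2 = 0 := by
      rcases mul_eq_zero.1 b1 with h0 | h0
      · exact absurd h0 hAne
      · exact h0
    have b3 : 0 < A ^ 2 := by positivity
    rcases le_or_gt 0 κ with hκ0 | hκ0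
    · have : 0 ≤ κ * h ^ 3 := by positivity
      linarith
    · -- `κ ≤ -1`
      have b4 : κ ^ 2 ≤ (-κ) * h ^ 3 := by
        have : κ ^ 2 = (-κ) * (-κ) := by ring
        rw [this]
        apply mul_le_mul_of_nonneg_left _ (by omega)
        rw [abs_of_neg hκ0] at hκh
        linarith
      have b5 : h ^ 3 ≤ (-κ) * h ^ 3 := le_mul_of_one_le_left (by positivity) (by omega)
      linarith
  · have b1 : 1 ≤ |B| := Int.one_le_abs hB0
    have b2 : h ^ 6 ≤ h ^ 6 * |B| := le_mul_of_one_le_right h60 b1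
    have b3 : |54 * h ^ 6 * B| = 54 * (h ^ 6 * |B|) := by
      rw [abs_mul, abs_mul, abs_of_nonneg h60]; norm_num; ring
    have b4 : h ^ 5 * |B| * 6 ≤ h ^ 6 * |B| := by
      have := mul_le_mul_of_nonneg_right hh56 (abs_nonneg B)
      linarith
    have b5 : h ^ 2 * |B| * 6 ≤ h ^ 6 * |B| := by
      have : 6 * h ^ 2 ≤ h ^ 6 := by linarith
      have := mul_le_mul_of_nonneg_right this (abs_nonneg B)
      linarith
    have b6 : |54 * h ^ 6 * B| ≤ 27 * |κ * h ^ 3 * (640 * A)| + 27 * |κ * h ^ 3 * (64 * B)|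
        + 25 * (A * A ^ 2) + 2 * |A ^ 2 * B| + 6912 * (A * κ ^ 2) := by
      obtain ⟨u1, u2⟩ := abs_le.1 (le_refl |κ * h ^ 3 * (640 * A)|)
      obtain ⟨u3, u4⟩ := abs_le.1 (le_refl |κ * h ^ 3 * (64 * B)|)
      obtain ⟨u5, u6⟩ := abs_le.1 (le_refl |A ^ 2 * B|)
      rw [abs_le]
      constructor <;> linarith
    have b7 : 0 < h ^ 6 * |B| := by positivity
    linarith

end Pool.Agent.T9h61.Strong
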