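import Pool.Agent.T9h61.StrongA

/-! Stronger repulsion of integral points close to the curve `y ^ 2 = x ^ 3`, second part. -/

set_option autoImplicit false

namespace Pool.Agent.T9h61.Strong

/-- case of a large difference -/
lemma partB (w h κ σ A K : ℤ) (hh : 0 < h) (hK : 1 ≤ K) (hκK : |κ| ≤ 2 * K) (hσK : |σ| ≤ 2 * K)
    (f5 : 4000 * K * h ^ 2 ≤ w) (f7 : w ≤ 22 * h ^ 3) (f8 : 160000000 * K * h ^ 5 ≤ w ^ 2)
    (hA : |A| ≤ 10 * w * h ^ 2)
    (hr : A * (w ^ 3 - 6 * h ^ 2 * w + A + 32 * σ) =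
      3 * h ^ 4 * w ^ 2 - 16 * h ^ 6 - 96 * κ * w ^ 2 * h - 128 * κ * h ^ 3 - 256 * κ ^ 2
        + 288 * h ^ 2 * w * σ) : False := by
  have hK0 : 0 < K := by omega
  have hh2 : 1 ≤ h ^ 2 := one_le_pow₀ hh
  have hhh : h ≤ h ^ 2 := le_self_pow₀ hh (by norm_num)
  have hKh : K ≤ K * h ^ 2 := le_mul_of_one_le_right (by omega) hh2
  have hh2K : h ^ 2 ≤ K * h ^ 2 := le_mul_of_one_le_left (by positivity) hK
  have hKhh : K * h ≤ K * h ^ 2 := mul_le_mul_of_nonneg_left hhh (by omega)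
  have w4 : 4000 ≤ w := by linarith
  have hw0 : 0 < w := by omega
  have w4' : 4000 * w ≤ w ^ 2 := by
    have : 4000 * w ≤ w * w := mul_le_mul_of_nonneg_right w4 hw0.le
    linarith
  have w5' : 4000 * w ^ 2 ≤ w ^ 3 := by
    have : 4000 * w ^ 2 ≤ w * w ^ 2 := mul_le_mul_of_nonneg_right w4 (by positivity)
    linarith
  -- `K ≤ h / 10 ^ 5` and `K w ≤ h ^ 4 / 10 ^ 4`
  have g1 : 160000000 * K * h ^ 2 ≤ 22 * w := by
    have a1 : h ^ 3 * (160000000 * K * h ^ 2) ≤ h ^ 3 * (22 * w) := by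
      have : w * w ≤ w * (22 * h ^ 3) := mul_le_mul_of_nonneg_left f7 hw0.le
      linarith
    exact le_of_mul_le_mul_left a1 (by positivity)
  have g2 : 100000 * K ≤ h := by
    have a1 : h ^ 2 * (100000 * K) ≤ h ^ 2 * h := by linarith [show (0:ℤ) ≤ h ^ 3 by positivity]
    exact le_of_mul_le_mul_left a1 (by positivity)
  have g3 : 10000 * (K * w) ≤ h ^ 4 := by
    have a2 : w ^ 3 ≤ (22 * h ^ 3) ^ 3 := pow_le_pow_left₀ hw0.le f7 3
    have a1 : h ^ 5 * (10000 * (K * w)) ≤ h ^ 5 * h ^ 4 := by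
      have : w * (160000000 * K * h ^ 5) ≤ w * w ^ 2 := mul_le_mul_of_nonneg_left f8 hw0.le
      linarith [show (0:ℤ) ≤ h ^ 9 by positivity]
    exact le_of_mul_le_mul_left a1 (by positivity)
  have h5 : 100000 ≤ h := by omega
  have hh23 : 100000 * h ^ 2 ≤ h ^ 3 := by
    have := mul_le_mul_of_nonneg_right h5 (show 0 ≤ h ^ 2 by positivity)
    linarith
  have hh34 : 100000 * h ^ 3 ≤ h ^ 4 := by
    have := mul_le_mul_of_nonneg_right h5 (show 0 ≤ h ^ 3 by positivity)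
    linarith
  have hh45 : 100000 * h ^ 4 ≤ h ^ 5 := by
    have := mul_le_mul_of_nonneg_right h5 (show 0 ≤ h ^ 4 by positivity)
    linarith
  have hh56 : 100000 * h ^ 5 ≤ h ^ 6 := by
    have := mul_le_mul_of_nonneg_right h5 (show 0 ≤ h ^ 5 by positivity)
    linarith
  have hw40 : 0 ≤ h ^ 4 * w ^ 2 := by positivity
  have hw41 : h ^ 4 ≤ h ^ 4 * w ^ 2 := le_mul_of_one_le_right (by positivity) (by linarith)
  have h40 : 0 < h ^ 4 := by positivity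
  have h50 : 0 < h ^ 5 := by positivity
  have h60 : 0 < h ^ 6 := by positivity
  -- bounds for the individual terms
  have t1 : |κ ^ 2| ≤ (2 * K) * (2 * K) := by rw [sq]; exact mb hκK hκK
  have t2 : 100000 * (K * K) ≤ h ^ 2 := by
    have : (100000 * K) * K ≤ h * h := mul_le_mul g2 (by omega) (by positivity) hh.le
    linarith
  have t3 : |κ * h ^ 3| ≤ (2 * K) * h ^ 3 := mb hκK (abs_of_nonneg (by positivity)).le
  have t4 : 100000 * (K * h ^ 3) ≤ h ^ 4 := by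
    have a1 := mul_le_mul_of_nonneg_right g2 (show 0 ≤ h ^ 3 by positivity)
    linarith
  have t5 : |h ^ 2 * w * σ| ≤ (h ^ 2 * w) * (2 * K) := mb (abs_of_nonneg (by positivity)).le hσK
  have t6 : 10000 * (h ^ 2 * w * K) ≤ h ^ 6 := by
    have := mul_le_mul_of_nonneg_right g3 (show 0 ≤ h ^ 2 by positivity)
    linarith
  have t7 : |κ * (w ^ 2 * h)| ≤ (2 * K) * (w ^ 2 * h) := mb hκK (abs_of_nonneg (by positivity)).le
  have t8 : 100000 * (K * (w ^ 2 * h)) ≤ h ^ 2 * w ^ 2 := by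
    have := mul_le_mul_of_nonneg_right g2 (show 0 ≤ w ^ 2 * h by positivity)
    linarith
  have t8' : 100000 * 100000 * (h ^ 2 * w ^ 2) ≤ h ^ 4 * w ^ 2 := by
    have : 100000 * (100000 * h ^ 2) ≤ h ^ 4 := by linarith
    have := mul_le_mul_of_nonneg_right this (show 0 ≤ w ^ 2 by positivity)
    linarith
  have t9 : 4000 * h ^ 6 ≤ h ^ 4 * w := by
    have := mul_le_mul_of_nonneg_right (show 4000 * h ^ 2 ≤ w by linarith) (show 0 ≤ h ^ 4 by positivity)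
    linarith
  have t10 : 4000 * (h ^ 4 * w) ≤ h ^ 4 * w ^ 2 := by
    have := mul_le_mul_of_nonneg_right w4' (show 0 ≤ h ^ 4 by positivity)
    linarith
  have t11 : 4000 * (h ^ 2 * w) ≤ w ^ 2 := by
    have : (4000 * h ^ 2) * w ≤ w * w := mul_le_mul_of_nonneg_right (by linarith) hw0.le
    linarith
  obtain ⟨k1, k2⟩ := abs_le.1 hκK
  obtain ⟨s1, s2⟩ := abs_le.1 hσK
  obtain ⟨a1, a2⟩ := abs_le.1 hA
  obtain ⟨p1, p1'⟩ := abs_le.1 t1
  obtain ⟨p3, p3'⟩ := abs_le.1 t3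
  obtain ⟨p5, p5'⟩ := abs_le.1 t5
  obtain ⟨p7, p7'⟩ := abs_le.1 t7
  have q2 : 0 ≤ κ ^ 2 := by positivity
  set D := w ^ 3 - 6 * h ^ 2 * w + A + 32 * σ with hD
  have hD1 : 99 * w ^ 3 ≤ 100 * D := by
    rw [hD]
    linarith
  have hD2 : 100 * D ≤ 101 * w ^ 3 := by
    rw [hD]
    linarith
  have hD0 : 0 < D := by
    have : 0 < w ^ 3 := by positivity
    linarith
  set N := 3 * h ^ 4 * w ^ 2 - 16 * h ^ 6 - 96 * κ * w ^ 2 * h - 128 * κ * h ^ 3 - 256 * κ ^ 2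
        + 288 * h ^ 2 * w * σ with hN
  have hN1 : 100 * N ≤ 302 * (h ^ 4 * w ^ 2) := by
    rw [hN]
    linarith
  have hN2 : 298 * (h ^ 4 * w ^ 2) ≤ 100 * N := by
    rw [hN]
    linarith
  have hN0 : 0 < N := by
    have : 0 < h ^ 4 * w ^ 2 := by positivity
    linarith
  have hApos : 0 < A := by
    have b3 : 0 < A * D := by rw [hr]; exact hN0
    exact pos_of_mul_pos_left b3 hD0.le
  -- `A w ≈ 3 h ^ 4`
  have hA1 : 10 * (A * w) ≤ 31 * h ^ 4 := by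
    have b1 : A * (99 * w ^ 3) ≤ A * (100 * D) := mul_le_mul_of_nonneg_left hD1 hApos.le
    have b2 : w ^ 2 * (99 * (A * w)) ≤ w ^ 2 * (302 * h ^ 4) := by linarith
    have b3 := le_of_mul_le_mul_left b2 (by positivity)
    linarith
  have hA2 : 29 * h ^ 4 ≤ 10 * (A * w) := by
    have b1 : A * (100 * D) ≤ A * (101 * w ^ 3) := mul_le_mul_of_nonneg_left hD2 hApos.le
    have b2 : w ^ 2 * (298 * h ^ 4) ≤ w ^ 2 * (101 * (A * w)) := by linarith
    have b3 := le_of_mul_le_mul_left b2 (by positivity)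
    linarith
  -- `A ^ 2 ≤ h ^ 3 / 10 ^ 7`
  have f8' : 160000000 * h ^ 5 ≤ w ^ 2 := by
    have : h ^ 5 ≤ K * h ^ 5 := le_mul_of_one_le_left (by positivity) hK
    linarith
  have hA3 : 10000000 * A ^ 2 ≤ h ^ 3 := by
    have b1 : (10 * (A * w)) ^ 2 ≤ (31 * h ^ 4) ^ 2 := pow_le_pow_left₀ (by positivity) hA1 2
    have b2 : h ^ 3 * (160000000 * h ^ 5) ≤ h ^ 3 * w ^ 2 :=
      mul_le_mul_of_nonneg_left f8' (by positivity)
    have b3 : w ^ 2 * (10000000 * A ^ 2) ≤ w ^ 2 * h ^ 3 := by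
      linarith [show (0:ℤ) ≤ h ^ 8 by positivity]
    exact le_of_mul_le_mul_left b3 (by positivity)
  have hAh : A ≤ h ^ 3 := by
    have : A ≤ A ^ 2 := le_self_pow₀ (by omega) (by norm_num)
    linarith [show (0:ℤ) ≤ A ^ 2 by positivity]
  have hAK : 10000 * (A * K) ≤ h ^ 3 := by
    -- `A K ≤ A ^ 2 + K ^ 2`
    have b1 : 2 * (A * K) ≤ A ^ 2 * 1 + K * K := by
      have := sq_nonneg (A - K)
      linarith
    have b2 : 0 ≤ K * K := by positivity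
    have b3 : 0 ≤ A ^ 2 := by positivity
    linarith
  -- the integer `j`
  set j := 3 * h ^ 4 - A * w - 96 * κ * h with hj
  have hR := rel2 h w κ σ A j hj hr
  have t13 : |A * σ| ≤ A * (2 * K) := mb (abs_of_pos hApos).le hσK
  obtain ⟨p13, p13'⟩ := abs_le.1 t13
  have hA20 : 0 ≤ A ^ 2 := by positivity
  have hRb : 10 * |-2 * h ^ 6 + 704 * κ * h ^ 3 + A ^ 2 + 256 * κ ^ 2
      - 288 * h ^ 2 * w * σ + 32 * A * σ| ≤ 21 * h ^ 6 := by
    have : |10 * (-2 * h ^ 6 + 704 * κ * h ^ 3 + A ^ 2 + 256 * κ ^ 2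
      - 288 * h ^ 2 * w * σ + 32 * A * σ)| ≤ 21 * h ^ 6 := by
      rw [abs_le]
      constructor <;> linarith
    rw [abs_mul] at this
    simpa using this
  have hJ : 10 * (w ^ 2 * |j|) ≤ 22 * h ^ 6 := by
    have b2 : 99 * w ^ 2 ≤ 100 * (w ^ 2 - 6 * h ^ 2) := by linarith
    have b3 : (99 * w ^ 2) * |j| ≤ (100 * (w ^ 2 - 6 * h ^ 2)) * |j| :=
      mul_le_mul_of_nonneg_right b2 (abs_nonneg _)
    have b4 : (w ^ 2 - 6 * h ^ 2) * |j| = |(w ^ 2 - 6 * h ^ 2) * j| := by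
      rw [abs_mul, abs_of_nonneg (by linarith [show (0:ℤ) ≤ w ^ 2 by positivity] : 0 ≤ w ^ 2 - 6 * h ^ 2)]
    rw [hR] at b4
    linarith
  have hJ0 : 0 ≤ |j| := abs_nonneg _
  have hJh : 10000000 * |j| ≤ h := by
    have b1 : h * (160000000 * h ^ 5) ≤ h * w ^ 2 := mul_le_mul_of_nonneg_left f8' hh.le
    have b2 : w ^ 2 * (10000000 * |j|) ≤ w ^ 2 * h := by linarith
    exact le_of_mul_le_mul_left b2 (by positivity)
  -- the integer `l`
  have hE := rel3 h w κ σ A j _ hj rfl hR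
  set l := 2 * A ^ 2 + 9 * h ^ 2 * j + 864 * A * σ with hl
  have u1 : |h ^ 4 * j| ≤ h ^ 4 * |j| := mb (abs_of_pos h40).le le_rfl
  have u1' : 10000000 * (h ^ 4 * |j|) ≤ h ^ 5 := by
    have := mul_le_mul_of_nonneg_left hJh h40.le
    linarith
  have u2 : |j ^ 2| ≤ |j| * |j| := by rw [sq]; exact mb le_rfl le_rfl
  have u2' : |j| * |j| ≤ h ^ 2 := by
    have : |j| * |j| ≤ h * h := mul_le_mul (by omega) (by omega) hJ0 hh.le
    linarith
  have u3 : |κ ^ 2 * h ^ 2| ≤ ((2 * K) * |κ|) * h ^ 2 := by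
    apply mb _ (abs_of_nonneg (by positivity)).le
    rw [sq]
    exact mb hκK le_rfl
  have u3' : 100000 * (K * |κ| * h ^ 2) ≤ |κ| * h ^ 3 := by
    have := mul_le_mul_of_nonneg_right g2 (show 0 ≤ |κ| * h ^ 2 by positivity)
    linarith
  have u4 : |κ * (h * j)| ≤ |κ| * (h * |j|) := mb le_rfl (mb (abs_of_pos hh).le le_rfl)
  have u4' : |κ| * (h * |j|) ≤ |κ| * h ^ 2 := by
    apply mul_le_mul_of_nonneg_left _ (abs_nonneg _)
    rw [sq]
    exact mul_le_mul_of_nonneg_left (by omega) hh.le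
  have u5 : |σ * w * j| ≤ (2 * K) * w * |j| := mb (mb hσK (abs_of_pos hw0).le) le_rfl
  have u5' : 10000 * (K * w * |j|) ≤ h ^ 4 * |j| := by
    have := mul_le_mul_of_nonneg_right g3 hJ0
    linarith
  have u6 : |κ * σ * (h * w)| ≤ (|κ| * (2 * K)) * (h * w) :=
    mb (mb le_rfl hσK) (abs_of_nonneg (by positivity)).le
  have u6' : 10000 * (|κ| * K * (h * w)) ≤ |κ| * h ^ 5 := by
    have := mul_le_mul_of_nonneg_left g3 (show 0 ≤ |κ| * h by positivity)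
    linarith
  have u7 : 10000000 * (h ^ 2 * A ^ 2) ≤ h ^ 5 := by
    have := mul_le_mul_of_nonneg_left hA3 (show 0 ≤ h ^ 2 by positivity)
    linarith
  have u7' : 0 ≤ h ^ 2 * A ^ 2 := by positivity
  have u8 : |h ^ 2 * (A * σ)| ≤ h ^ 2 * (A * (2 * K)) := mb (abs_of_nonneg (by positivity)).le t13
  have u8' : 10000 * (h ^ 2 * (A * K)) ≤ h ^ 5 := by
    have := mul_le_mul_of_nonneg_left hAK (show 0 ≤ h ^ 2 by positivity)
    linarith
  have u9 : |κ * h ^ 5| = |κ| * h ^ 5 := by rw [abs_mul, abs_of_pos h50]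
  have v1 : 100000 * (|κ| * h ^ 2) ≤ |κ| * h ^ 3 := by
    have := mul_le_mul_of_nonneg_left hh23 (abs_nonneg κ)
    linarith
  have v2 : 100000 * (|κ| * h ^ 3) ≤ |κ| * h ^ 5 := by
    have : 100000 * h ^ 3 ≤ h ^ 5 := by linarith [show (0:ℤ) ≤ h ^ 3 by positivity]
    have := mul_le_mul_of_nonneg_left this (abs_nonneg κ)
    linarith
  have v3 : 0 ≤ |κ| * h ^ 2 := by positivity
  obtain ⟨z1, z1'⟩ := abs_le.1 u1
  obtain ⟨z2, z2'⟩ := abs_le.1 u2
  obtain ⟨z3, z3'⟩ := abs_le.1 u3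
  obtain ⟨z4, z4'⟩ := abs_le.1 u4
  obtain ⟨z5, z5'⟩ := abs_le.1 u5
  obtain ⟨z6, z6'⟩ := abs_le.1 u6
  obtain ⟨z8, z8'⟩ := abs_le.1 u8
  -- all terms except `5184 κ h ^ 5`
  have hrest : |w ^ 2 * l - 5184 * (κ * h ^ 5)| ≤ h ^ 5 + 100 * (|κ| * h ^ 5) := by
    have h20 : 0 < h ^ 2 := by positivity
    rw [hE, abs_le]
    constructor <;> linarith
  have hl0 : l = 0 := by
    by_contra hne
    have b1 : 1 ≤ |l| := Int.one_le_abs hne
    have b2 : w ^ 2 ≤ |w ^ 2 * l| := by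
      rw [abs_mul, abs_of_nonneg (show 0 ≤ w ^ 2 by positivity)]
      exact le_mul_of_one_le_right (by positivity) b1
    have b3 : |w ^ 2 * l| ≤ |w ^ 2 * l - 5184 * (κ * h ^ 5)| + |5184 * (κ * h ^ 5)| := by
      have := abs_add_le (w ^ 2 * l - 5184 * (κ * h ^ 5)) (5184 * (κ * h ^ 5))
      rwa [sub_add_cancel] at this
    have b4 : |5184 * (κ * h ^ 5)| = 5184 * (|κ| * h ^ 5) := by
      rw [abs_mul, u9]; norm_num
    have b5 : |κ| * h ^ 5 ≤ (2 * K) * h ^ 5 := mul_le_mul_of_nonneg_right hκK h50.le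
    have b6 : h ^ 5 ≤ K * h ^ 5 := le_mul_of_one_le_left h50.le hK
    linarith
  rw [hl0, mul_zero] at hE
  by_cases hκ0 : κ = 0
  · -- `κ = 0`
    have hj' : A * w = 3 * h ^ 4 - j := by rw [hj, hκ0]; ring
    have hE' : 42 * h ^ 4 * j + 2 * j ^ 2 - 864 * σ * w * j + 9 * h ^ 2 * A ^ 2
      + 288 * h ^ 2 * A * σ = 0 := by
      rw [hκ0] at hE
      linarith
    have hZ := rel4 h w σ A j hj' hl0 hE'
    have hσA : 14500 * |σ| ≤ A := by
      have b1 : w * (14500 * |σ|) ≤ w * A := by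
        have := mul_le_mul_of_nonneg_left hσK hw0.le
        linarith
      exact le_of_mul_le_mul_left b1 hw0
    have hJA : 3 * (h ^ 2 * |j|) ≤ A ^ 2 := by
      have b1 : (29 * h ^ 4) ^ 2 ≤ (10 * (A * w)) ^ 2 := pow_le_pow_left₀ (by positivity) hA2 2
      have b2 : w ^ 2 * (3 * (h ^ 2 * |j|)) ≤ w ^ 2 * A ^ 2 := by
        have := mul_le_mul_of_nonneg_left hJ (show 0 ≤ h ^ 2 by positivity)
        linarith [show (0:ℤ) ≤ h ^ 8 by positivity]
      exact le_of_mul_le_mul_left b2 (by positivity)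
    have c1 : |A * σ| * 14500 ≤ A ^ 2 := by
      rw [abs_mul, abs_of_pos hApos]
      have := mul_le_mul_of_nonneg_left hσA hApos.le
      linarith
    have c2 : σ ^ 2 * (14500 * 14500) ≤ A ^ 2 := by
      have := pow_le_pow_left₀ (by positivity) hσA 2
      rw [mul_pow, sq_abs] at this
      linarith
    have c3 : j ^ 2 * h ^ 2 * 3 ≤ A ^ 2 * |j| := by
      have := mul_le_mul_of_nonneg_right hJA hJ0
      have e : j ^ 2 = |j| * |j| := by rw [← sq, sq_abs]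
      rw [e]
      linarith
    have c4 : |A * σ * j| * 14500 ≤ A ^ 2 * |j| := by
      rw [abs_mul]
      have := mul_le_mul_of_nonneg_right c1 hJ0
      linarith
    have c5 : |σ ^ 2 * j| * (14500 * 14500) ≤ A ^ 2 * |j| := by
      rw [abs_mul, abs_of_nonneg (show 0 ≤ σ ^ 2 by positivity)]
      have := mul_le_mul_of_nonneg_right c2 hJ0
      linarith
    have c6 : A ^ 2 * |j| ≤ A ^ 2 * h := mul_le_mul_of_nonneg_left (by omega) hA20
    have c7 : A ^ 2 * h * 100000 ≤ A ^ 2 * h ^ 4 := by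
      have : h * 100000 ≤ h ^ 4 := by linarith [show (0:ℤ) ≤ h ^ 3 by positivity]
      have := mul_le_mul_of_nonneg_left this hA20
      linarith
    have c8 : h ^ 4 * (|A * σ| * 14500) ≤ h ^ 4 * A ^ 2 := mul_le_mul_of_nonneg_left c1 h40.le
    have c9 : h ^ 4 * (σ ^ 2 * (14500 * 14500)) ≤ h ^ 4 * A ^ 2 := mul_le_mul_of_nonneg_left c2 h40.le
    have c10 : 0 < h ^ 4 * A ^ 2 := by positivity
    have c11 : |h ^ 4 * (A * σ)| ≤ h ^ 4 * |A * σ| := mb (abs_of_pos h40).le le_rfl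
    obtain ⟨d1, d1'⟩ := abs_le.1 c11
    obtain ⟨d2, d2'⟩ := abs_le.1 (le_refl |A * σ * j|)
    obtain ⟨d3, d3'⟩ := abs_le.1 (le_refl |σ ^ 2 * j|)
    have c12 : 0 ≤ h ^ 4 * σ ^ 2 := by positivity
    have c13 : 0 ≤ |σ ^ 2 * j| := abs_nonneg _
    have c14 : 0 ≤ |A * σ * j| := abs_nonneg _
    have c15 : 0 ≤ h ^ 4 * |A * σ| := by positivity
    linarith
  · -- `κ ≠ 0`
    have b1 : 1 ≤ |κ| := Int.one_le_abs hκ0
    have b2 : h ^ 5 ≤ |κ| * h ^ 5 := le_mul_of_one_le_left h50.le b1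
    rw [hl0, mul_zero, zero_sub, abs_neg, abs_mul, u9] at hrest
    norm_num at hrest
    linarith

/-- the repulsion of integral points near the curve `y ^ 2 = x ^ 3`, positive ordinates -/
theorem main (x y x' y' K : ℤ) (hx : 0 < x) (hlt : x < x') (hy : 0 ≤ y) (hy' : 0 ≤ y') (hK : 1 ≤ K)
    (h1 : |y ^ 2 - x ^ 3| ≤ K) (h2 : |y' ^ 2 - x' ^ 3| ≤ K) :
    x < 1000 * K * (x' - x) ^ 2 ∨ x ^ 2 < 10 ^ 7 * K * (x' - x) ^ 5 := by
  by_contra hcon
  push Not at hcon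
  obtain ⟨c1, c2⟩ := hcon
  obtain ⟨h, rfl⟩ : ∃ h, x' = x + h := ⟨x' - x, by ring⟩
  obtain ⟨m, rfl⟩ : ∃ m, y' = y + m := ⟨y' - y, by ring⟩
  rw [add_sub_cancel_left] at c1 c2
  have hh : 0 < h := by omega
  set w := 4 * x + 2 * h with hw
  set κ := ((y + m) ^ 2 - (x + h) ^ 3) - (y ^ 2 - x ^ 3) with hκ
  set σ := ((y + m) ^ 2 - (x + h) ^ 3) + (y ^ 2 - x ^ 3) with hσ
  set A := 9 * h ^ 2 * w - 16 * m ^ 2 with hA
  have hκK : |κ| ≤ 2 * K := by
    have := abs_sub ((y + m) ^ 2 - (x + h) ^ 3) (y ^ 2 - x ^ 3)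
    linarith
  have hσK : |σ| ≤ 2 * K := by
    have := abs_add_le ((y + m) ^ 2 - (x + h) ^ 3) (y ^ 2 - x ^ 3)
    linarith
  have f5 : 4000 * K * h ^ 2 ≤ w := by linarith
  have hr := rel x y h m w κ σ A hw hκ hσ hA
  have hAb := boundA x y h m w κ σ A K hx hh hy hy' hw hκ hσ hA hK hκK hσK f5
  rcases le_or_gt (20 * h ^ 3) w with h7 | h7
  · exact partA w h κ σ A K hh hK hκK hσK f5 h7 hAb hr
  · have f8 : 160000000 * K * h ^ 5 ≤ w ^ 2 := by
      have a1 : (4 * x) ^ 2 ≤ w ^ 2 := pow_le_pow_left₀ (by positivity) (by linarith) 2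
      linarith
    have h30 : 0 < h ^ 3 := by positivity
    exact partB w h κ σ A K hh hK hκK hσK f5 (by linarith) f8 hAb hr

end Pool.Agent.T9h61.Strong
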